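import Pool.Agent.W354.HW.Euler

/-!
The character `χ₈ ∘ N` of `ℤ[i]` modulo `4` and the Hecke characters `ψ^k χ₈ ∘ N` (helper20).
-/

set_option autoImplicit false
set_option maxHeartbeats 4000000

open Complex Filter Topology Set

namespace Pool.Agent.Zk20.FQ

open Pool.Agent.H304R3.HK (tc bb CS UH ee bb_zero bb_two_odd)
open Pool.Agent.H304R3.HK.M3 (In b_mul b_rec b_one b_two b_odd)
open Pool.Agent.H304R2.EC (PS Sh Sh_inert PS_split an aE aE_eq an_inert)
open Pool.Agent.H304R2.EC.EProd (local_factor)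
open Pool.Agent.H304R2.EC.A1 (Q prim prim_iff re_mul' im_mul' isCoprime_of_norm norm_def')
open Pool.Agent.W354.PK (HCk psik bK LK tc_mul goodK uh_psik)
open Pool.Agent.W354.PK.TK (psik_apply)
open Pool.Agent.W354.HW

/-- `χ₈(n)` -/
def v8 (n : ℤ) : ℂ := if n % 8 = 1 then 1 else if n % 8 = 5 then -1 else 0

theorem norm_mod4 (z : GaussianInt) : z.norm % 4 = 0 ∨ z.norm % 4 = 1 ∨ z.norm % 4 = 2 := by
  rw [norm_def']
  have h : ∀ x : ℤ, x ^ 2 % 4 = 0 ∨ x ^ 2 % 4 = 1 := by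
    intro x
    have hx : x % 4 = 0 ∨ x % 4 = 1 ∨ x % 4 = 2 ∨ x % 4 = 3 := by omega
    rcases hx with h | h | h | h <;> rw [pow_two, Int.mul_emod, h] <;> norm_num
  have h1 := h z.re
  have h2 := h z.im
  omega

theorem v8_mul {a b : ℤ} (ha : a % 4 ≠ 3) (hb : b % 4 ≠ 3) : v8 (a * b) = v8 a * v8 b := by
  have h1 : (a * b) % 8 = ((a % 8) * (b % 8)) % 8 := Int.mul_emod a b 8
  have ha8 : a % 8 = 0 ∨ a % 8 = 1 ∨ a % 8 = 2 ∨ a % 8 = 4 ∨ a % 8 = 5 ∨ a % 8 = 6 := by omega
  have hb8 : b % 8 = 0 ∨ b % 8 = 1 ∨ b % 8 = 2 ∨ b % 8 = 4 ∨ b % 8 = 5 ∨ b % 8 = 6 := by omega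
  unfold v8
  rw [h1]
  rcases ha8 with h | h | h | h | h | h <;> rcases hb8 with h' | h' | h' | h' | h' | h' <;>
    rw [h, h'] <;> norm_num

/-- `χ₈ ∘ N` -/
noncomputable def chi8 : GaussianInt →* ℂ where
  toFun z := v8 z.norm
  map_one' := by
    rw [Zsqrtd.norm_one]
    rfl
  map_mul' := by
    intro x y
    rw [Zsqrtd.norm_mul]
    exact v8_mul (by rcases norm_mod4 x with h | h | h <;> omega)
      (by rcases norm_mod4 y with h | h | h <;> omega)

theorem chi8_apply (z : GaussianInt) : chi8 z = v8 z.norm := rfl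

theorem chi8_ne (z : GaussianInt) : chi8 z ≠ 0 ↔ z.norm % 2 = 1 := by
  rw [chi8_apply]
  unfold v8
  have h := norm_mod4 z
  by_cases h1 : z.norm % 8 = 1
  · rw [if_pos h1]
    simp only [ne_eq, one_ne_zero, not_false_eq_true, true_iff]
    omega
  · rw [if_neg h1]
    by_cases h5 : z.norm % 8 = 5
    · rw [if_pos h5]
      simp only [ne_eq, neg_eq_zero, one_ne_zero, not_false_eq_true, true_iff]
      omega
    · rw [if_neg h5]
      simp only [ne_eq, not_true_eq_false, false_iff]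
      omega

theorem chi8_norm (z : GaussianInt) (h : z.norm % 2 = 1) : ‖chi8 z‖ = 1 := by
  rw [chi8_apply]
  unfold v8
  have h4 := norm_mod4 z
  by_cases h1 : z.norm % 8 = 1
  · rw [if_pos h1, norm_one]
  · rw [if_neg h1, if_pos (by omega), norm_neg, norm_one]

/-- the modulus `4` -/
def q4 : GaussianInt := ⟨4, 0⟩

theorem qE_dvd_q4 : qE ∣ q4 := ⟨⟨1, -1⟩, by decide⟩

theorem coprime_q4 (z : GaussianInt) : IsCoprime z q4 ↔ z.norm % 2 = 1 := by
  constructor
  · intro h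
    exact (coprime_iff z).mp (h.of_isCoprime_of_dvd_right qE_dvd_q4)
  · intro h
    apply isCoprime_of_norm
    have h16 : q4.norm = 16 := by decide
    rw [h16, Int.isCoprime_iff_gcd_eq_one]
    have h2 : Int.gcd z.norm 2 = 1 := by
      rw [← Int.isCoprime_iff_gcd_eq_one]
      exact ⟨1, -(z.norm / 2), by omega⟩
    have h3 : IsCoprime z.norm (2 ^ 4) := by
      apply IsCoprime.pow_right
      rw [Int.isCoprime_iff_gcd_eq_one]
      exact h2
    have h4 : ((2 : ℤ) ^ 4) = 16 := by norm_num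
    rw [h4, Int.isCoprime_iff_gcd_eq_one] at h3
    exact h3

/-- the twisted character -/
noncomputable def ch8 (k : ℕ) : GaussianInt →* ℂ := chiE ^ k * chi8

theorem ch8_apply (k : ℕ) (z : GaussianInt) : ch8 k z = chiE z ^ k * chi8 z := by
  unfold ch8
  rw [MonoidHom.mul_apply, MonoidHom.pow_apply]

theorem ch8_HC (k : ℕ) : HCk k q4 (ch8 k) where
  q0 := by decide
  per := by
    intro a b h
    have h1 : chiE a = chiE b := chiE_HC.per a b (qE_dvd_q4.trans h)
    obtain ⟨c, hc⟩ := h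
    have hre : a.re = b.re + 4 * c.re := by
      have := congrArg Zsqrtd.re hc
      rw [Zsqrtd.re_sub, re_mul'] at this
      simp only [q4] at this
      linarith
    have him : a.im = b.im + 4 * c.im := by
      have := congrArg Zsqrtd.im hc
      rw [Zsqrtd.im_sub, im_mul'] at this
      simp only [q4] at this
      linarith
    have h2 : chi8 a = chi8 b := by
      rw [chi8_apply, chi8_apply]
      have : a.norm % 8 = b.norm % 8 := by
        rw [norm_def', norm_def', hre, him]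
        have e : (b.re + 4 * c.re) ^ 2 + (b.im + 4 * c.im) ^ 2 = b.re ^ 2 + b.im ^ 2 +
          8 * (b.re * c.re + b.im * c.im + 2 * c.re ^ 2 + 2 * c.im ^ 2) := by ring
        rw [e]
        omega
      unfold v8
      rw [this]
    rw [ch8_apply, ch8_apply, h1, h2]
  supp := fun a => by
    rw [ch8_apply, coprime_q4, mul_ne_zero_iff, chi8_ne]
    constructor
    · exact fun h => h.2
    · exact fun h => ⟨pow_ne_zero _ ((chiE_ne a).mpr h), h⟩
  nrm := fun a h => by
    rw [coprime_q4] at h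
    rw [ch8_apply, norm_mul, norm_pow, chi8_norm a h, chiE_HC.nrm a ((coprime_iff a).mpr h), one_pow,
      one_mul]
  unit := by
    rw [ch8_apply, chiE_HC.unit, pow_one, chi8_apply]
    have h : (⟨0, 1⟩ : GaussianInt).norm = 1 := by decide
    rw [h]
    simp [v8]
  prim := by
    intro d hd hqd
    refine ⟨⟨3, 2⟩, ?_, ?_, ?_⟩
    · rw [coprime_q4]
      decide
    · obtain ⟨e, he⟩ := hd
      have hen : e.norm % 2 = 0 := by
        by_contra hc
        have hodd : e.norm % 2 = 1 := by omega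
        have hcop : IsCoprime e q4 := (coprime_q4 e).mpr hodd
        have hu : IsUnit e := by
          have hdvd : e ∣ q4 := ⟨d, by rw [he]; ring⟩
          exact hcop.isUnit_of_dvd' dvd_rfl hdvd
        apply hqd
        obtain ⟨u, rfl⟩ := hu
        exact ⟨((u⁻¹ : (GaussianInt)ˣ) : GaussianInt), by rw [he, mul_assoc, Units.mul_inv, mul_one]⟩
      have h1 : ∃ e' : GaussianInt, e = ⟨1, 1⟩ * e' := by
        rw [norm_def'] at hen
        have hpar : (e.re + e.im) % 2 = 0 := by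
          have h2 : ∀ x : ℤ, (x ^ 2) % 2 = x % 2 := by
            intro x
            rcases Int.emod_two_eq_zero_or_one x with h | h <;> rw [pow_two, Int.mul_emod, h] <;> simp
          have h3 := h2 e.re
          have h4 := h2 e.im
          omega
        refine ⟨⟨(e.re + e.im) / 2, (e.im - e.re) / 2⟩, ?_⟩
        apply Zsqrtd.ext
        · rw [re_mul']; simp only; omega
        · rw [im_mul']; simp only; omega
      obtain ⟨e', rfl⟩ := h1
      have h2 : (⟨1, 1⟩ : GaussianInt) * ⟨2, -2⟩ = ⟨1, 1⟩ * (d * e') := by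
        have : (⟨1, 1⟩ : GaussianInt) * ⟨2, -2⟩ = q4 := by decide
        rw [this, he]
        ring
      have h3 : (⟨2, -2⟩ : GaussianInt) = d * e' :=
        mul_left_cancel₀ (show (⟨1, 1⟩ : GaussianInt) ≠ 0 by decide) h2
      have h4 : (⟨3, 2⟩ : GaussianInt) - 1 = ⟨2, -2⟩ * ⟨0, 1⟩ := by decide
      rw [h4, h3]
      exact ⟨e' * ⟨0, 1⟩, by ring⟩
    · rw [ch8_apply, chi8_apply]
      have h1 : chiE ⟨3, 2⟩ = 1 := by
        apply chiE_prim
        unfold prim
        decide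
      have h2 : (⟨3, 2⟩ : GaussianInt).norm = 13 := by decide
      rw [h1, h2, one_pow, one_mul]
      unfold v8
      norm_num

/-- twisting the coefficients -/
theorem bb_ch8 (k : ℕ) (n : ℕ) : bb (psik k (ch8 k)) n = v8 n * bb (psik k (chiE ^ k)) n := by
  unfold bb
  have h : ∑ p ∈ CS n, psik k (ch8 k) ⟨p.1, p.2⟩ =
      v8 n * ∑ p ∈ CS n, psik k (chiE ^ k) ⟨p.1, p.2⟩ := by
    rw [Finset.mul_sum]
    refine Finset.sum_congr rfl fun p hp => ?_
    unfold CS at hp
    have h1 : p.1 ^ 2 + p.2 ^ 2 = (n : ℤ) := (Finset.mem_filter.mp hp).2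
    rw [psik_apply, psik_apply]
    split_ifs with h0
    · rw [mul_zero]
    · rw [ch8_apply, MonoidHom.pow_apply, chi8_apply, norm_def', h1]
      ring
  rw [h]
  ring

theorem psik_ch8_nat (k p : ℕ) (hp : p % 2 = 1) :
    psik k (ch8 k) (p : GaussianInt) = psik k (chiE ^ k) (p : GaussianInt) := by
  rw [psik_apply, psik_apply]
  split_ifs with h0
  · rfl
  · rw [ch8_apply, MonoidHom.pow_apply, chi8_apply]
    have h1 : ((p : GaussianInt)).norm = ((p : ℤ)) ^ 2 := by
      rw [norm_def']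
      simp
    rw [h1]
    have h2 : ((p : ℤ)) ^ 2 % 8 = 1 := by
      have h8 : (p : ℤ) % 8 = 1 ∨ (p : ℤ) % 8 = 3 ∨ (p : ℤ) % 8 = 5 ∨ (p : ℤ) % 8 = 7 := by omega
      rcases h8 with h | h | h | h <;> rw [pow_two, Int.mul_emod, h] <;> norm_num
    unfold v8
    rw [if_pos h2, mul_one]

/-- the general Euler product -/
theorem euler_gen {k : ℕ} (hk : 1 ≤ k) {q : GaussianInt} {χ : GaussianInt →* ℂ} (H : HCk k q χ)
    (u v : ℕ → ℂ) (huv : ∀ p : ℕ, p.Prime → p ≠ 2 → u p + v p = bb (psik k χ) p ∧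
      u p * v p = ee (psik k χ) p) (s : ℂ) (hs : 1 < s.re) :
    HasProd (fun p : {p : ℕ // p.Prime ∧ p ≠ 2} =>
      ((1 - u p * ((p : ℕ) : ℂ) ^ (-s)) * (1 - v p * ((p : ℕ) : ℂ) ^ (-s)))⁻¹)
      ((1 - psik k χ ⟨1, 1⟩ * (2 : ℂ) ^ (-s)) * LK k χ s) := by
  obtain ⟨A, hA, hgood⟩ := goodK
  have hsum := (hgood k q χ hk H).2.1 s hs
  set h := psik k χ with hh
  have hUH : UH h := uh_psik H
  have I : In h := { z0 := bb_zero _ hUH.h0, two := fun j m hm => bb_two_odd _ hUH.hi j m hm }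
  set f : ℕ → ℂ := fun n => bb h n * (n : ℂ) ^ (-s) with hf
  have hsum' : HasSum f (LK k χ s) := hsum
  have hf1 : f 1 = 1 := by simp [hf, b_one I]
  have hf0 : f 0 = 0 := by simp [hf, I.z0]
  have hmul : ∀ {m n : ℕ}, m.Coprime n → f (m * n) = f m * f n := by
    intro m n hmn
    simp only [hf]
    rw [b_mul I m n hmn]
    push_cast
    rw [Complex.natCast_mul_natCast_cpow]
    ring
  have hprod := EulerProduct.eulerProduct_hasProd hf1 hmul hsum'.summable.norm hf0
  rw [hsum'.tsum_eq] at hprod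
  -- the prime `2`
  have hX2 : ‖h ⟨1, 1⟩ * (2 : ℂ) ^ (-s)‖ < 1 := by
    rw [norm_mul]
    have h1 : ‖(2 : ℂ) ^ (-s)‖ < 1 := by
      have : ((2 : ℕ) : ℂ) = 2 := by norm_num
      rw [← this, Complex.norm_natCast_cpow_of_pos (by norm_num), Complex.neg_re]
      exact Real.rpow_lt_one_of_one_lt_of_neg (by norm_num) (by linarith)
    have h2 := hUH.hb ⟨1, 1⟩
    calc ‖h ⟨1, 1⟩‖ * ‖(2 : ℂ) ^ (-s)‖ ≤ 1 * ‖(2 : ℂ) ^ (-s)‖ :=
          mul_le_mul_of_nonneg_right h2 (norm_nonneg _)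
      _ < 1 := by rw [one_mul]; exact h1
  have hpow : ∀ (p e : ℕ), (((p ^ e : ℕ) : ℂ)) ^ (-s) = ((p : ℂ) ^ (-s)) ^ e := by
    intro p e
    induction e with
    | zero => simp
    | succ e ih =>
      rw [pow_succ, pow_succ, ← ih]
      push_cast
      rw [show ((p : ℂ) ^ e) = ((p ^ e : ℕ) : ℂ) by push_cast; rfl,
        Complex.natCast_mul_natCast_cpow]
  have htwo : ∑' e, f (2 ^ e) = (1 - h ⟨1, 1⟩ * (2 : ℂ) ^ (-s))⁻¹ := by
    have h1 : ∀ e, f (2 ^ e) = (h ⟨1, 1⟩ * (2 : ℂ) ^ (-s)) ^ e := by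
      intro e
      simp only [hf]
      rw [b_two I, hpow, mul_pow]
      norm_num
    simp_rw [h1]
    exact tsum_geometric_of_norm_lt_one hX2
  have h2ne : 1 - h ⟨1, 1⟩ * (2 : ℂ) ^ (-s) ≠ 0 := by
    intro h0
    have : h ⟨1, 1⟩ * (2 : ℂ) ^ (-s) = 1 := by linear_combination -h0
    rw [this, norm_one] at hX2
    exact lt_irrefl _ hX2
  have hg2 : HasProd (fun p : Nat.Primes => if (p : ℕ) = 2 then
      (1 - h ⟨1, 1⟩ * (2 : ℂ) ^ (-s)) else 1) (1 - h ⟨1, 1⟩ * (2 : ℂ) ^ (-s)) := by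
    have := hasProd_single (f := fun p : Nat.Primes => if (p : ℕ) = 2 then
      (1 - h ⟨1, 1⟩ * (2 : ℂ) ^ (-s)) else 1) (⟨2, Nat.prime_two⟩ : Nat.Primes) (by
        intro p hp
        exact if_neg (fun h2 => hp (Subtype.ext h2)))
    simpa using this
  have hprod' := hg2.mul hprod
  set g : {p : ℕ // p.Prime ∧ p ≠ 2} → Nat.Primes := fun p => ⟨p.1, p.2.1⟩ with hg
  have hginj : Function.Injective g := by
    intro a b hab
    apply Subtype.ext
    have := congrArg (fun x : Nat.Primes => (x : ℕ)) hab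
    simpa [hg] using this
  have hsupp : ∀ p : Nat.Primes, p ∉ Set.range g → (if (p : ℕ) = 2 then
      (1 - h ⟨1, 1⟩ * (2 : ℂ) ^ (-s)) else 1) * ∑' e, f ((p : ℕ) ^ e) = 1 := by
    intro p hp
    have h2 : (p : ℕ) = 2 := by
      by_contra h2
      exact hp ⟨⟨p.1, p.2, h2⟩, rfl⟩
    rw [if_pos h2, h2, htwo, mul_inv_cancel₀ h2ne]
  have hprod2 := (hginj.hasProd_iff hsupp).mpr hprod'
  have hfun : ((fun p : Nat.Primes => (if (p : ℕ) = 2 then
      (1 - h ⟨1, 1⟩ * (2 : ℂ) ^ (-s)) else 1) * ∑' e, f ((p : ℕ) ^ e)) ∘ g) =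
      fun p : {p : ℕ // p.Prime ∧ p ≠ 2} =>
      ((1 - u p * ((p : ℕ) : ℂ) ^ (-s)) * (1 - v p * ((p : ℕ) : ℂ) ^ (-s)))⁻¹ := by
    funext p
    obtain ⟨p, hp, h2⟩ := p
    show (if p = 2 then (1 - h ⟨1, 1⟩ * (2 : ℂ) ^ (-s)) else 1) * ∑' e, f (p ^ e) = _
    rw [if_neg h2, one_mul]
    obtain ⟨hu, hv⟩ := huv p hp h2
    set X : ℂ := (p : ℂ) ^ (-s) with hX
    have hval : ∀ e, f (p ^ e) = bb h (p ^ e) * X ^ e := by
      intro e
      simp only [hf]
      rw [hpow]
    have key := local_factor (fun e => f (p ^ e)) (bb h p * X) (ee h p * X ^ 2)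
      (by simpa using hf1) (by
        have := hval 1
        simp only [pow_one] at this ⊢
        exact this) (by
        intro e
        simp only [hval]
        rw [b_rec hUH I p hp e]
        ring) (hsum'.summable.comp_injective (Nat.pow_right_injective hp.two_le))
    rw [eq_comm, inv_eq_iff_eq_inv]
    have hfac : (1 - u p * X) * (1 - v p * X) = 1 - bb h p * X + ee h p * X ^ 2 := by
      rw [← hu, ← hv]
      ring
    rw [hfac]
    exact eq_inv_of_mul_eq_one_left key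
  rw [hfun] at hprod2
  exact hprod2

end Pool.Agent.Zk20.FQ
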