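import Pool.Agent.Zk20.FQ.Tri2
import Pool.Agent.H82R3.EK.FF

/-!
Points on the affine cone `∑ x_i^4 = 0` over a finite field (helper20).
-/

set_option autoImplicit false

open Finset

namespace Pool.Agent.Zk20.FQ

section count
variable {F : Type} [Field F] [Fintype F] [DecidableEq F]

/-- points through additive characters -/
lemma count_eq (N : ℕ) {ψ : AddChar F ℂ} (hψ : ψ.IsPrimitive) (f : F → F) :
    (Fintype.card F : ℂ) * (Nat.card {x : Fin N → F // ∑ i, f (x i) = 0} : ℂ) =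
      ∑ t : F, (∑ x : F, ψ (t * f x)) ^ N := by
  have h : ∀ x : Fin N → F, ∑ t : F, ∏ i, ψ (t * f (x i)) =
      if ∑ i, f (x i) = 0 then (Fintype.card F : ℂ) else 0 := by
    intro x
    have h1 : ∀ t : F, ∏ i, ψ (t * f (x i)) = ψ (t * ∑ i, f (x i)) := by
      intro t
      rw [Finset.mul_sum]
      exact (map_prod ψ.toMonoidHom (fun i => Multiplicative.ofAdd (t * f (x i))) Finset.univ).symm
    simp_rw [h1]
    rw [AddChar.sum_mulShift _ hψ]
    split_ifs <;> simp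
  have h2 : ∀ t : F, (∑ x : F, ψ (t * f x)) ^ N = ∑ x : Fin N → F, ∏ i, ψ (t * f (x i)) :=
    fun t => Fintype.sum_pow _ _
  simp_rw [h2]
  rw [Finset.sum_comm]
  simp_rw [h]
  rw [← Finset.sum_filter, Finset.sum_const, nsmul_eq_mul, Nat.card_eq_fintype_card,
    Fintype.card_subtype, mul_comm]

/-- the complex quadratic character -/
noncomputable def et : MulChar F ℂ := (quadraticChar F).ringHomComp (Int.castRingHom ℂ)

lemma et_apply (x : F) : et x = ((quadraticChar F x : ℤ) : ℂ) := rfl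

lemma sum_sq (hF : ringChar F ≠ 2) (f : F → ℂ) :
    ∑ x : F, f (x ^ 2) = ∑ u : F, f u * (1 + et u) := by
  have h1 : ∑ x : F, f (x ^ 2) = ∑ u : F, ∑ x ∈ univ.filter (fun x : F => x ^ 2 = u), f (x ^ 2) :=
    (Finset.sum_fiberwise _ _ _).symm
  rw [h1]
  refine Finset.sum_congr rfl fun u _ => ?_
  have h2 : ∑ x ∈ univ.filter (fun x : F => x ^ 2 = u), f (x ^ 2) =
      ∑ _x ∈ univ.filter (fun x : F => x ^ 2 = u), f u :=
    Finset.sum_congr rfl fun x hx => by rw [(Finset.mem_filter.mp hx).2]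
  rw [h2, Finset.sum_const, nsmul_eq_mul, mul_comm]
  congr 1
  have h3 := quadraticChar_card_sqrts hF u
  have h4 : ({x : F | x ^ 2 = u}.toFinset).card = (univ.filter (fun x : F => x ^ 2 = u)).card := by
    congr 1
    ext x
    simp
  rw [h4] at h3
  rw [et_apply, add_comm]
  exact_mod_cast h3

variable {χ : MulChar F ℂ}

lemma chi_four (hχ : orderOf χ = 4) {x : F} (hx : x ≠ 0) : χ x ^ 4 = 1 := by
  have h1 : χ ^ 4 = 1 := by rw [← hχ]; exact pow_orderOf_eq_one χ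
  have h2 : (χ ^ 4) x = (1 : MulChar F ℂ) x := by rw [h1]
  rw [MulChar.pow_apply' _ (by norm_num), MulChar.one_apply hx.isUnit] at h2
  exact h2

lemma chi_sq (hF : ringChar F ≠ 2) (hχ : orderOf χ = 4) (x : F) : χ x ^ 2 = et x := by
  rw [et_apply]
  by_cases hx : x = 0
  · rw [hx, MulChar.map_zero, quadraticChar_zero]
    norm_num
  have hne : χ ^ 2 ≠ 1 := by
    intro h
    have h1 := orderOf_dvd_of_pow_eq_one h
    rw [hχ] at h1
    norm_num at h1
  have hsq : ∀ y : F, y ≠ 0 → IsSquare y → χ y ^ 2 = 1 := by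
    rintro y hy ⟨z, rfl⟩
    have hz : z ≠ 0 := left_ne_zero_of_mul hy
    rw [map_mul, ← pow_two, ← pow_mul]
    exact chi_four hχ hz
  obtain ⟨a, ha⟩ : ∃ a : Fˣ, (χ ^ 2) a ≠ 1 := by
    by_contra hc
    push Not at hc
    exact hne (MulChar.eq_one_iff.mpr hc)
  rw [MulChar.pow_apply' _ (by norm_num)] at ha
  have ha0 : (a : F) ≠ 0 := a.ne_zero
  have ha1 : χ (a : F) ^ 2 = -1 := by
    have h4 := chi_four hχ ha0
    have h5 : (χ (a : F) ^ 2 - 1) * (χ (a : F) ^ 2 + 1) = 0 := by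
      linear_combination h4
    rcases mul_eq_zero.mp h5 with h | h
    · exact absurd (sub_eq_zero.mp h) ha
    · exact eq_neg_of_add_eq_zero_left h
  have hans : ¬ IsSquare (a : F) := fun h => ha (hsq _ ha0 h)
  by_cases hs : IsSquare x
  · rw [hsq x hx hs, (quadraticChar_one_iff_isSquare hx).mpr hs]
    norm_num
  · have h1 : quadraticChar F x = -1 := quadraticChar_neg_one_iff_not_isSquare.mpr hs
    have h2 : quadraticChar F (a : F) = -1 := quadraticChar_neg_one_iff_not_isSquare.mpr hans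
    have h3 : IsSquare (x * a) := by
      rw [← quadraticChar_one_iff_isSquare (mul_ne_zero hx ha0), map_mul, h1, h2]
      norm_num
    have h4 := hsq _ (mul_ne_zero hx ha0) h3
    rw [map_mul, mul_pow, ha1] at h4
    rw [h1]
    push_cast
    linear_combination -h4

lemma chi_sq_eq (hF : ringChar F ≠ 2) (hχ : orderOf χ = 4) : χ ^ 2 = et := by
  ext x
  rw [MulChar.pow_apply' _ (by norm_num)]
  exact chi_sq hF hχ x

lemma sum_four (hF : ringChar F ≠ 2) (hχ : orderOf χ = 4) (f : F → ℂ) :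
    ∑ x : F, f (x ^ 4) = ∑ u : F, f u * (1 + et u + χ u + χ u * et u) := by
  have h1 : ∑ x : F, f (x ^ 4) = ∑ y : F, f (y ^ 2) * (1 + et y) := by
    have := sum_sq hF (fun y => f (y ^ 2))
    simp only [← pow_mul] at this
    exact this
  have h2 : ∑ y : F, f (y ^ 2) * (1 + et y) = ∑ y : F, (fun u => f u * (1 + χ u)) (y ^ 2) := by
    refine Finset.sum_congr rfl fun y _ => ?_
    simp only
    rw [map_pow, chi_sq hF hχ]
  rw [h1, h2, sum_sq hF (fun u => f u * (1 + χ u))]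
  refine Finset.sum_congr rfl fun u _ => ?_
  ring

lemma et_sq {x : F} (hx : x ≠ 0) : (et x : ℂ) ^ 2 = 1 := by
  rw [et_apply]
  have h := quadraticChar_sq_one hx
  exact_mod_cast h

/-- the three Gauss sums -/
noncomputable def gs (χ : MulChar F ℂ) (ψ : AddChar F ℂ) (j : ℕ) : ℂ := gaussSum (χ ^ j) ψ

/-- the sum `∑ ψ(t x^4)` -/
lemma sum_psi (hF : ringChar F ≠ 2) (hχ : orderOf χ = 4) {ψ : AddChar F ℂ} (hψ : ψ.IsPrimitive)
    {t : F} (ht : t ≠ 0) : ∑ x : F, ψ (t * x ^ 4) =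
      χ t ^ 3 * gs χ ψ 1 + χ t ^ 2 * gs χ ψ 2 + χ t * gs χ ψ 3 := by
  rw [sum_four hF hχ (fun u => ψ (t * u))]
  have h0 : ∑ u : F, ψ (t * u) = 0 := by
    have := AddChar.sum_mulShift t hψ
    rw [if_neg ht, Nat.cast_zero] at this
    rw [← this]
    exact Finset.sum_congr rfl fun u _ => by rw [mul_comm]
  have hg : ∀ j : ℕ, χ t ^ j * ∑ u : F, ψ (t * u) * (χ ^ j) u = gs χ ψ j := by
    intro j
    have h1 := gaussSum_mulShift (χ ^ j) ψ (Units.mk0 t ht)
    unfold gs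
    rw [← h1]
    congr 1
    · rw [Units.val_mk0]
      rcases Nat.eq_zero_or_pos j with rfl | hj
      · rw [pow_zero, pow_zero, MulChar.one_apply (Ne.isUnit ht)]
      · rw [MulChar.pow_apply' _ hj.ne']
    · unfold gaussSum
      refine Finset.sum_congr rfl fun u _ => ?_
      rw [AddChar.mulShift_apply, Units.val_mk0, mul_comm]
  have h4 := chi_four hχ ht
  have e1 : ∑ u : F, ψ (t * u) * (χ ^ 1) u = χ t ^ 3 * gs χ ψ 1 := by
    rw [← hg 1]
    linear_combination (-(∑ u : F, ψ (t * u) * (χ ^ 1) u)) * h4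
  have e2 : ∑ u : F, ψ (t * u) * (χ ^ 2) u = χ t ^ 2 * gs χ ψ 2 := by
    rw [← hg 2]
    linear_combination (-(∑ u : F, ψ (t * u) * (χ ^ 2) u)) * h4
  have e3 : ∑ u : F, ψ (t * u) * (χ ^ 3) u = χ t * gs χ ψ 3 := by
    rw [← hg 3]
    linear_combination (-(∑ u : F, ψ (t * u) * (χ ^ 3) u)) * h4
  rw [← e1, ← e2, ← e3]
  have : ∀ u : F, ψ (t * u) * (1 + et u + χ u + χ u * et u) =
      ψ (t * u) + ψ (t * u) * (χ ^ 1) u + ψ (t * u) * (χ ^ 2) u + ψ (t * u) * (χ ^ 3) u := by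
    intro u
    rw [MulChar.pow_apply' _ (by norm_num), MulChar.pow_apply' _ (by norm_num),
      MulChar.pow_apply' _ (by norm_num), ← chi_sq hF hχ]
    ring
  simp_rw [this]
  rw [Finset.sum_add_distrib, Finset.sum_add_distrib, Finset.sum_add_distrib, h0]
  ring

lemma card_ne : (Fintype.card F : ℂ) ≠ 0 := by
  exact_mod_cast Fintype.card_ne_zero

lemma et_isQuadratic : (et : MulChar F ℂ).IsQuadratic := by
  intro x
  rw [et_apply]
  rcases quadraticChar_isQuadratic F x with h | h | h <;> rw [h] <;> simp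

lemma et_ne_one (hF : ringChar F ≠ 2) : (et : MulChar F ℂ) ≠ 1 := by
  obtain ⟨a, ha⟩ := quadraticChar_exists_neg_one' hF
  intro h
  have h1 : (et : MulChar F ℂ) (a : F) = (1 : MulChar F ℂ) (a : F) := by rw [h]
  rw [et_apply, ha, MulChar.one_apply a.isUnit] at h1
  norm_num at h1

lemma chi_pow_ne (hχ : orderOf χ = 4) {j : ℕ} (hj : ¬ 4 ∣ j) : χ ^ j ≠ 1 := by
  intro h
  exact hj (by rw [← hχ]; exact orderOf_dvd_of_pow_eq_one h)

/-- `g₁ g₃ = χ(-1) q` -/
lemma g13 (hχ : orderOf χ = 4) {ψ : AddChar F ℂ} (hψ : ψ.IsPrimitive) :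
    gs χ ψ 1 * gs χ ψ 3 = χ (-1) * Fintype.card F := by
  have h := gaussSum_mul_gaussSum_pow_orderOf_sub_one
    (χ := χ) (ψ := ψ) (by simpa using chi_pow_ne hχ (j := 1) (by norm_num)) hψ
  rw [hχ] at h
  unfold gs
  rw [pow_one]
  exact h

lemma chi_neg_one_sq : χ (-1) ^ 2 = 1 := by
  rw [← map_pow]
  simp

/-- `g₂² = q` -/
lemma g22 (hF : ringChar F ≠ 2) (hχ : orderOf χ = 4) {ψ : AddChar F ℂ} (hψ : ψ.IsPrimitive) :
    gs χ ψ 2 ^ 2 = Fintype.card F := by
  unfold gs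
  rw [chi_sq_eq hF hχ, gaussSum_sq (et_ne_one hF) et_isQuadratic hψ, ← chi_sq hF hχ,
    chi_neg_one_sq, one_mul]

lemma g_ne (hχ : orderOf χ = 4) {ψ : AddChar F ℂ} (hψ : ψ.IsPrimitive) {j : ℕ} (hj : ¬ 4 ∣ j) :
    gs χ ψ j ≠ 0 :=
  gaussSum_ne_zero_of_nontrivial card_ne (chi_pow_ne hχ hj) hψ

/-- sums of powers of `χ` over the units -/
lemma sum_chi_zpow (hχ : orderOf χ = 4) (k : ℤ) :
    ∑ t ∈ univ.filter (fun t : F => t ≠ 0), χ t ^ k =
      if (4 : ℤ) ∣ k then ((Fintype.card F : ℂ) - 1) else 0 := by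
  have hcard : ((univ.filter (fun t : F => t ≠ 0)).card : ℂ) = (Fintype.card F : ℂ) - 1 := by
    rw [Finset.filter_ne', Finset.card_erase_of_mem (Finset.mem_univ _), Finset.card_univ,
      Nat.cast_sub Fintype.card_pos, Nat.cast_one]
  obtain ⟨j, m, hj, hk⟩ : ∃ (j : ℕ) (m : ℤ), j < 4 ∧ k = j + 4 * m :=
    ⟨(k % 4).toNat, k / 4, by omega, by omega⟩
  have h1 : ∀ t ∈ univ.filter (fun t : F => t ≠ 0), χ t ^ k = χ t ^ j := by
    intro t ht
    have ht0 : t ≠ 0 := (Finset.mem_filter.mp ht).2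
    have h4 := chi_four hχ ht0
    have h0 : χ t ≠ 0 := fun h => by rw [h] at h4; norm_num at h4
    rw [hk, zpow_add₀ h0, zpow_mul, zpow_natCast]
    have : χ t ^ (4 : ℤ) = 1 := by exact_mod_cast h4
    rw [this, one_zpow, mul_one]
  rw [Finset.sum_congr rfl h1]
  rcases Nat.eq_zero_or_pos j with h0 | h0
  · subst h0
    rw [if_pos ⟨m, by rw [hk]; ring⟩]
    simp only [pow_zero, Finset.sum_const, nsmul_eq_mul, mul_one]
    exact hcard
  · rw [if_neg (by omega)]
    have h2 : ∑ t ∈ univ.filter (fun t : F => t ≠ 0), χ t ^ j = ∑ t : F, (χ ^ j) t := by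
      rw [Finset.sum_filter]
      refine Finset.sum_congr rfl fun t _ => ?_
      rw [MulChar.pow_apply' _ h0.ne']
      split_ifs with h
      · rfl
      · push Not at h
        rw [h, MulChar.map_zero, zero_pow h0.ne']
    rw [h2]
    exact MulChar.sum_eq_zero_of_ne_one (chi_pow_ne hχ (by omega))

end count

end Pool.Agent.Zk20.FQ
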