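import Pool.Agent.Zk20.FQ.Count
import Pool.Agent.H82R3.EK.Local

/-!
Points on the Fermat quartics over a finite field through the curve `y² = x³ - x` (helper20).
-/

set_option autoImplicit false

open Finset

namespace Pool.Agent.Zk20.FQ

section count
variable {F : Type} [Field F] [Fintype F] [DecidableEq F] {χ : MulChar F ℂ}

/-- the sum over `t` -/
lemma power_sum (hF : ringChar F ≠ 2) (hχ : orderOf χ = 4) {ψ : AddChar F ℂ} (hψ : ψ.IsPrimitive)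
    {γ : ℂ} (hγ : γ ^ 2 = χ (-1)) (N : ℕ) :
    HasSum (fun k : ℤ => (if (4 : ℤ) ∣ 2 * N + k then ((Fintype.card F : ℂ) - 1) else 0) *
        (tau γ N k * gs χ ψ 2 ^ N * (gs χ ψ 1 / (gs χ ψ 2 * γ)) ^ k))
      (∑ t ∈ univ.filter (fun t : F => t ≠ 0), (∑ x : F, ψ (t * x ^ 4)) ^ N) := by
  have hγ0 : γ ≠ 0 := by
    intro h
    rw [h] at hγ
    have := chi_neg_one_sq (χ := χ)
    rw [← hγ] at this
    norm_num at this
  have h1n : gs χ ψ 1 ≠ 0 := g_ne hχ hψ (by norm_num)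
  have h2n : gs χ ψ 2 ≠ 0 := g_ne hχ hψ (by norm_num)
  set v : ℂ := gs χ ψ 1 / (gs χ ψ 2 * γ) with hv
  have hv0 : v ≠ 0 := div_ne_zero h1n (mul_ne_zero h2n hγ0)
  have hS : ∀ t ∈ univ.filter (fun t : F => t ≠ 0),
      HasSum (fun k : ℤ => tau γ N k * gs χ ψ 2 ^ N * v ^ k * χ t ^ ((2 * N : ℤ) + k))
        ((∑ x : F, ψ (t * x ^ 4)) ^ N) := by
    intro t ht
    have ht0 : t ≠ 0 := (Finset.mem_filter.mp ht).2
    have h4 := chi_four hχ ht0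
    have hc0 : χ t ≠ 0 := fun h => by rw [h] at h4; norm_num at h4
    have hy0 : χ t * v ≠ 0 := mul_ne_zero hc0 hv0
    have h := (tau_hasSum (γ := γ) hy0 N).mul_left ((χ t ^ 2 * gs χ ψ 2) ^ N)
    have e1 : (∑ x : F, ψ (t * x ^ 4)) ^ N =
        (χ t ^ 2 * gs χ ψ 2) ^ N * (1 + γ * (χ t * v + (χ t * v)⁻¹)) ^ N := by
      rw [← mul_pow, sum_psi hF hχ hψ ht0]
      congr 1
      have e2 : χ t ^ 2 * gs χ ψ 2 * (γ * (χ t * v)) = χ t ^ 3 * gs χ ψ 1 := by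
        rw [hv]
        field_simp
      have e3 : χ t ^ 2 * gs χ ψ 2 * (γ * (χ t * v)⁻¹) = χ t * gs χ ψ 3 := by
        have e4 : gs χ ψ 2 ^ 2 * γ ^ 2 = gs χ ψ 1 * gs χ ψ 3 := by
          rw [g22 hF hχ hψ, g13 hχ hψ, hγ]
          ring
        rw [hv, mul_inv, inv_div]
        field_simp
        linear_combination e4
      have e5 : χ t ^ 2 * gs χ ψ 2 * (1 + γ * (χ t * v + (χ t * v)⁻¹)) =
          χ t ^ 2 * gs χ ψ 2 + χ t ^ 2 * gs χ ψ 2 * (γ * (χ t * v)) +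
            χ t ^ 2 * gs χ ψ 2 * (γ * (χ t * v)⁻¹) := by ring
      rw [e5, e2, e3]
      ring
    rw [e1]
    have e6 : (fun k : ℤ => tau γ N k * gs χ ψ 2 ^ N * v ^ k * χ t ^ ((2 * N : ℤ) + k)) =
        fun k : ℤ => (χ t ^ 2 * gs χ ψ 2) ^ N * (tau γ N k * (χ t * v) ^ k) := by
      funext k
      rw [mul_zpow, zpow_add₀ hc0, zpow_mul, mul_pow, zpow_natCast, ← pow_mul]
      have : (χ t ^ (2 : ℤ)) ^ N = χ t ^ (2 * N) := by
        rw [pow_mul]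
        norm_cast
      rw [this]
      ring
    rw [e6]
    exact h
  have hsum := hasSum_sum hS
  have e7 : (fun k : ℤ => (if (4 : ℤ) ∣ 2 * N + k then ((Fintype.card F : ℂ) - 1) else 0) *
        (tau γ N k * gs χ ψ 2 ^ N * v ^ k)) = fun k : ℤ =>
      ∑ t ∈ univ.filter (fun t : F => t ≠ 0),
        tau γ N k * gs χ ψ 2 ^ N * v ^ k * χ t ^ ((2 * N : ℤ) + k) := by
    funext k
    rw [← Finset.mul_sum, sum_chi_zpow hχ, mul_comm]
  rw [e7]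
  exact hsum

/-- the case of odd `N = 2 ν + 3` -/
lemma power_sum_odd (hF : ringChar F ≠ 2) (hχ : orderOf χ = 4) {ψ : AddChar F ℂ}
    (hψ : ψ.IsPrimitive) (ν : ℕ) :
    ∑ t ∈ univ.filter (fun t : F => t ≠ 0), (∑ x : F, ψ (t * x ^ 4)) ^ (2 * ν + 3) =
      ((Fintype.card F : ℂ) - 1) * ∑ j ∈ range (ν + 1),
        ((m0 (2 * ν + 3) j : ℂ) + χ (-1) * m1 (2 * ν + 3) j) * (Fintype.card F : ℂ) ^ (ν + 1 - j) *
          ((gs χ ψ 1 * gs χ ψ 2 / gs χ ψ 3) ^ (2 * j + 1) +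
            (gs χ ψ 3 * gs χ ψ 2 / gs χ ψ 1) ^ (2 * j + 1)) := by
  obtain ⟨γ, hγ⟩ : ∃ γ : ℂ, γ ^ 2 = χ (-1) := by
    have h := chi_neg_one_sq (χ := χ)
    have h2 : (χ (-1) - 1) * (χ (-1) + 1) = 0 := by linear_combination h
    rcases mul_eq_zero.mp h2 with h3 | h3
    · exact ⟨1, by rw [sub_eq_zero.mp h3]; norm_num⟩
    · exact ⟨Complex.I, by rw [eq_neg_of_add_eq_zero_left h3, Complex.I_sq]⟩
  have hγ4 : γ ^ 4 = 1 := by
    have : γ ^ 4 = (γ ^ 2) ^ 2 := by ring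
    rw [this, hγ, chi_neg_one_sq]
  have hγ0 : γ ≠ 0 := fun h => by rw [h] at hγ4; norm_num at hγ4
  set N : ℕ := 2 * ν + 3 with hN
  set Q : ℂ := (Fintype.card F : ℂ) with hQ
  have h1n : gs χ ψ 1 ≠ 0 := g_ne hχ hψ (by norm_num)
  have h2n : gs χ ψ 2 ≠ 0 := g_ne hχ hψ (by norm_num)
  have h3n : gs χ ψ 3 ≠ 0 := g_ne hχ hψ (by norm_num)
  set v : ℂ := gs χ ψ 1 / (gs χ ψ 2 * γ) with hv
  have hv0 : v ≠ 0 := div_ne_zero h1n (mul_ne_zero h2n hγ0)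
  have hv2 : v ^ 2 = gs χ ψ 1 / gs χ ψ 3 := by
    have e4 : gs χ ψ 2 ^ 2 * γ ^ 2 = gs χ ψ 1 * gs χ ψ 3 := by
      rw [g22 hF hχ hψ, g13 hχ hψ, hγ]
      ring
    rw [hv, div_pow, mul_pow, e4]
    field_simp
  have h := power_sum hF hχ hψ hγ N
  set f : ℤ → ℂ := fun k : ℤ => (if (4 : ℤ) ∣ 2 * N + k then (Q - 1) else 0) *
        (tau γ N k * gs χ ψ 2 ^ N * v ^ k) with hf
  have h' : HasSum f (∑ t ∈ univ.filter (fun t : F => t ≠ 0), (∑ x : F, ψ (t * x ^ 4)) ^ N) := h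
  have hf0 : f 0 = 0 := by
    simp only [hf]
    rw [if_neg (by omega), zero_mul]
  have h2 := h'.nat_add_neg
  rw [hf0, add_zero] at h2
  set G : ℕ → ℂ := fun n => f n + f (-(n : ℤ)) with hG
  have hinj : Function.Injective (fun j : ℕ => 4 * j + 2) := fun a b hab => by
    simp only at hab
    omega
  have h3 : HasSum (G ∘ fun j : ℕ => 4 * j + 2)
      (∑ t ∈ univ.filter (fun t : F => t ≠ 0), (∑ x : F, ψ (t * x ^ 4)) ^ N) := by
    refine (hinj.hasSum_iff ?_).mpr h2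
    intro n hn
    have h4 : ¬ n % 4 = 2 := by
      intro h5
      exact hn ⟨n / 4, by simp only; omega⟩
    simp only [hG, hf]
    rw [if_neg (by omega), if_neg (by omega)]
    ring
  have h4 : HasSum (G ∘ fun j : ℕ => 4 * j + 2) (∑ j ∈ range (ν + 1), (G ∘ fun j : ℕ => 4 * j + 2) j) := by
    refine hasSum_sum_of_ne_finset_zero fun j hj => ?_
    rw [Finset.mem_range, not_lt] at hj
    simp only [Function.comp, hG, hf]
    have e1 : tau γ N ((4 * j + 2 : ℕ) : ℤ) = 0 := by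
      apply tau_support
      rw [abs_of_nonneg (by positivity)]
      push_cast
      omega
    rw [tau_neg, e1]
    ring
  rw [h3.unique h4, Finset.mul_sum]
  refine Finset.sum_congr rfl fun j hj => ?_
  have hj' : j ≤ ν := by have := Finset.mem_range.mp hj; omega
  simp only [Function.comp, hG, hf]
  have e0 : ((4 * j + 2 : ℕ) : ℤ) = 4 * (j : ℤ) + 2 := by push_cast; ring
  rw [if_pos (by omega), if_pos (by omega), tau_neg, e0, tau_even hγ4, hγ]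
  have e1 : v ^ (4 * (j : ℤ) + 2) = (gs χ ψ 1 / gs χ ψ 3) ^ (2 * j + 1) := by
    rw [← hv2, ← pow_mul, ← zpow_natCast]
    congr 1
    push_cast
    ring
  have e2 : v ^ (-(4 * (j : ℤ) + 2)) = (gs χ ψ 3 / gs χ ψ 1) ^ (2 * j + 1) := by
    rw [zpow_neg, e1, ← inv_pow, inv_div]
  have e3 : gs χ ψ 2 ^ N = gs χ ψ 2 ^ (2 * j + 1) * Q ^ (ν + 1 - j) := by
    rw [hQ, ← g22 hF hχ hψ, ← pow_mul, ← pow_add]
    congr 1
    omega
  rw [e1, e2, e3]
  rw [div_pow, div_pow, div_pow, div_pow, mul_pow, mul_pow]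
  ring

/-- the two Jacobi sums -/
lemma kap (hF : ringChar F ≠ 2) (hχ : orderOf χ = 4) {ψ : AddChar F ℂ} (hψ : ψ.IsPrimitive) :
    gs χ ψ 1 * gs χ ψ 2 / gs χ ψ 3 * (gs χ ψ 3 * gs χ ψ 2 / gs χ ψ 1) = Fintype.card F ∧
    gs χ ψ 1 * gs χ ψ 2 / gs χ ψ 3 + gs χ ψ 3 * gs χ ψ 2 / gs χ ψ 1 =
      (Nat.card {x : F × F // x.2 ^ 2 = x.1 ^ 3 - x.1} : ℂ) - Fintype.card F := by
  have h1n : gs χ ψ 1 ≠ 0 := g_ne hχ hψ (by norm_num)
  have h3n : gs χ ψ 3 ≠ 0 := g_ne hχ hψ (by norm_num)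
  refine ⟨?_, ?_⟩
  · rw [← g22 hF hχ hψ]
    field_simp
  have j1 : gs χ ψ 1 * gs χ ψ 2 / gs χ ψ 3 = jacobiSum χ et := by
    have h := jacobiSum_mul_nontrivial (χ := χ) (φ := χ ^ 2)
      (by rw [← pow_succ']; exact chi_pow_ne hχ (by norm_num)) ψ
    rw [← pow_succ', chi_sq_eq hF hχ] at h
    rw [div_eq_iff h3n]
    unfold gs
    rw [pow_one, chi_sq_eq hF hχ, ← h]
    ring
  have j2 : gs χ ψ 3 * gs χ ψ 2 / gs χ ψ 1 = jacobiSum (χ ^ 3) et := by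
    have h5 : χ ^ 3 * χ ^ 2 = χ := by
      rw [← pow_add]
      have h4 : χ ^ 4 = 1 := by rw [← hχ]; exact pow_orderOf_eq_one χ
      calc χ ^ (3 + 2) = χ ^ 4 * χ := by rw [← pow_succ]
        _ = χ := by rw [h4, one_mul]
    have h := jacobiSum_mul_nontrivial (χ := χ ^ 3) (φ := χ ^ 2)
      (by rw [h5]; simpa using chi_pow_ne hχ (j := 1) (by norm_num)) ψ
    rw [h5, chi_sq_eq hF hχ] at h
    rw [div_eq_iff h1n]
    unfold gs
    rw [pow_one, chi_sq_eq hF hχ, ← h]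
    ring
  rw [j1, j2]
  have hcp := Pool.Agent.H82R3.EK.card_points hF (fun x : F => x ^ 3 - x)
  have hcp' : (Nat.card {x : F × F // x.2 ^ 2 = x.1 ^ 3 - x.1} : ℂ) =
      Fintype.card F + ∑ x : F, et (x ^ 3 - x) := by
    have h := congrArg (fun z : ℤ => (z : ℂ)) hcp
    push_cast at h
    rw [h]
    rfl
  rw [hcp', add_sub_cancel_left]
  have hm1 : (et (-1 : F) : ℂ) = 1 := by
    rw [← chi_sq hF hχ, chi_neg_one_sq]
  have e1 : jacobiSum χ et + jacobiSum (χ ^ 3) et =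
      ∑ u : F, (fun u => χ u * et (1 - u)) u * (1 + et u) := by
    unfold jacobiSum
    rw [← Finset.sum_add_distrib]
    refine Finset.sum_congr rfl fun u _ => ?_
    rw [MulChar.pow_apply' _ (by norm_num), ← chi_sq hF hχ u]
    ring
  rw [e1, ← sum_sq hF (fun u => χ u * et (1 - u))]
  refine Finset.sum_congr rfl fun x _ => ?_
  rw [map_pow, chi_sq hF hχ, ← map_mul, ← one_mul (et (x * (1 - x ^ 2))), ← hm1, ← map_mul]
  congr 1
  ring

end count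

end Pool.Agent.Zk20.FQ
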