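import Pool.Agent.Zk20.FQ.Count2

/-!
The trace of Frobenius on the middle cohomology of the odd-dimensional Fermat quartics (helper20).
-/

set_option autoImplicit false

open Finset

namespace Pool.Agent.Zk20.FQ

section count
variable {F : Type} [Field F] [Fintype F] [DecidableEq F]

/-- points on the affine cone -/
noncomputable def Aff (F : Type) [Field F] (N : ℕ) : ℕ := Nat.card {x : Fin N → F // ∑ i, x i ^ 4 = 0}

lemma exists_chi (h4 : Fintype.card F % 4 = 1) : ∃ χ : MulChar F ℂ, orderOf χ = 4 := by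
  have hI : IsPrimitiveRoot Complex.I 4 := by
    have := Complex.isPrimitiveRoot_exp 4 (by norm_num)
    refine IsPrimitiveRoot.mk_of_lt _ (by norm_num) Complex.I_pow_four ?_
    intro l hl1 hl2
    interval_cases l
    · rw [pow_one]
      intro h
      have := congrArg Complex.re h
      simp at this
    · rw [Complex.I_sq]
      norm_num
    · rw [Complex.I_pow_three]
      intro h
      have := congrArg Complex.re h
      simp at this
  have hdvd : 4 ∣ Fintype.card F - 1 := by
    have := Fintype.card_pos (α := F)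
    omega
  exact MulChar.exists_mulChar_orderOf F hdvd hI

lemma chi_neg_one (hF : ringChar F ≠ 2) (h4 : Fintype.card F % 4 = 1) {χ : MulChar F ℂ}
    (hχ : orderOf χ = 4) : χ (-1) = if Fintype.card F % 8 = 1 then 1 else -1 := by
  obtain ⟨i, hi⟩ : IsSquare (-1 : F) := by
    rw [FiniteField.isSquare_neg_one_iff]
    omega
  have hi2 : i ^ 2 = -1 := by rw [hi]; ring
  have hi0 : i ≠ 0 := by
    rintro rfl
    rw [mul_zero] at hi
    exact one_ne_zero (neg_eq_zero.mp hi)
  have h1 : χ (-1) = et i := by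
    rw [hi, map_mul, ← pow_two, chi_sq hF hχ]
  rw [h1, et_apply]
  have h2 := quadraticChar_eq_pow_of_char_ne_two' hF i
  have h3 := Ring.neg_one_ne_one_of_char_ne_two hF
  split_ifs with h8
  · have e1 : Fintype.card F / 2 = 2 * (2 * (Fintype.card F / 8)) := by omega
    rw [e1, pow_mul, hi2, pow_mul, neg_one_sq, one_pow] at h2
    rcases quadraticChar_dichotomy hi0 with h | h
    · rw [h]; simp
    · rw [h] at h2
      push_cast at h2
      exact absurd h2 h3
  · have e1 : Fintype.card F / 2 = 2 * (2 * (Fintype.card F / 8) + 1) := by omega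
    rw [e1, pow_mul, hi2, pow_succ, pow_mul, neg_one_sq, one_pow, one_mul] at h2
    rcases quadraticChar_dichotomy hi0 with h | h
    · rw [h] at h2
      push_cast at h2
      exact absurd h2.symm h3
    · rw [h]; simp

/-- the middle trace, `q ≡ 1` modulo `4` -/
theorem trace_one (hF : ringChar F ≠ 2) (h4 : Fintype.card F % 4 = 1) (ν : ℕ) {a b : ℂ}
    (hs : a + b = (Fintype.card F : ℂ) - (Nat.card {x : F × F // x.2 ^ 2 = x.1 ^ 3 - x.1} : ℂ))
    (hp : a * b = Fintype.card F) :
    ∃ c : ℂ, (c = if Fintype.card F % 8 = 1 then 1 else -1) ∧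
    (Fintype.card F : ℂ) ^ (2 * ν + 2) - (Aff F (2 * ν + 3) : ℂ) =
      ((Fintype.card F : ℂ) - 1) * ∑ j ∈ range (ν + 1),
        ((m0 (2 * ν + 3) j : ℂ) + c * m1 (2 * ν + 3) j) * (Fintype.card F : ℂ) ^ (ν - j) *
          (a ^ (2 * j + 1) + b ^ (2 * j + 1)) := by
  obtain ⟨χ, hχ⟩ := exists_chi h4
  have hψ := AddChar.FiniteField.primitiveChar_to_Complex_isPrimitive F
  set ψ := AddChar.FiniteField.primitiveChar_to_Complex F with hψd
  have hq : (Fintype.card F : ℂ) ≠ 0 := card_ne
  refine ⟨χ (-1), chi_neg_one hF h4 hχ, ?_⟩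
  · obtain ⟨k1, k2⟩ := kap hF hχ hψ
    set κ := gs χ ψ 1 * gs χ ψ 2 / gs χ ψ 3 with hκ
    set κ' := gs χ ψ 3 * gs χ ψ 2 / gs χ ψ 1 with hκ'
    -- `{a, b} = {-κ, -κ'}`
    have hab : ∀ j : ℕ, a ^ (2 * j + 1) + b ^ (2 * j + 1) =
        -(κ ^ (2 * j + 1) + κ' ^ (2 * j + 1)) := by
      intro j
      have hodd : Odd (2 * j + 1) := ⟨j, rfl⟩
      have h1 : (a + κ) * (a + κ') = 0 := by
        linear_combination a * k2 + k1 + a * hs - hp
      rcases mul_eq_zero.mp h1 with h | h
      · have ha : a = -κ := eq_neg_of_add_eq_zero_left h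
        have hb : b = -κ' := by
          rw [ha] at hs
          linear_combination hs + k2
        rw [ha, hb, hodd.neg_pow, hodd.neg_pow]
        ring
      · have ha : a = -κ' := eq_neg_of_add_eq_zero_left h
        have hb : b = -κ := by
          rw [ha] at hs
          linear_combination hs + k2
        rw [ha, hb, hodd.neg_pow, hodd.neg_pow]
        ring
    have hc := count_eq (2 * ν + 3) hψ (fun x : F => x ^ 4)
    have h0 : (∑ x : F, ψ (0 * x ^ 4)) = Fintype.card F := by simp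
    have hsplit : ∑ t : F, (∑ x : F, ψ (t * x ^ 4)) ^ (2 * ν + 3) =
        (Fintype.card F : ℂ) ^ (2 * ν + 3) +
        ∑ t ∈ univ.filter (fun t : F => t ≠ 0), (∑ x : F, ψ (t * x ^ 4)) ^ (2 * ν + 3) := by
      rw [← Finset.sum_filter_add_sum_filter_not univ (fun t : F => t = 0)]
      congr 1
      rw [Finset.filter_eq', if_pos (Finset.mem_univ _), Finset.sum_singleton, h0]
    rw [hsplit, power_sum_odd hF hχ hψ ν] at hc
    have hA : (Nat.card {x : Fin (2 * ν + 3) → F // ∑ i, x i ^ 4 = 0} : ℂ) = Aff F (2 * ν + 3) := rfl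
    rw [hA] at hc
    apply mul_left_cancel₀ hq
    rw [mul_sub, hc]
    have e1 : (Fintype.card F : ℂ) * (Fintype.card F : ℂ) ^ (2 * ν + 2) =
        (Fintype.card F : ℂ) ^ (2 * ν + 3) := by ring
    have key : ∑ j ∈ range (ν + 1),
        ((m0 (2 * ν + 3) j : ℂ) + χ (-1) * m1 (2 * ν + 3) j) * (Fintype.card F : ℂ) ^ (ν + 1 - j) *
          (κ ^ (2 * j + 1) + κ' ^ (2 * j + 1)) = -((Fintype.card F : ℂ) * ∑ j ∈ range (ν + 1),
        ((m0 (2 * ν + 3) j : ℂ) + χ (-1) * m1 (2 * ν + 3) j) * (Fintype.card F : ℂ) ^ (ν - j) *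
          (a ^ (2 * j + 1) + b ^ (2 * j + 1))) := by
      rw [Finset.mul_sum, ← Finset.sum_neg_distrib]
      refine Finset.sum_congr rfl fun j hj => ?_
      have hj' : j ≤ ν := by have := Finset.mem_range.mp hj; omega
      rw [hab j]
      have e2 : ν + 1 - j = (ν - j) + 1 := by omega
      rw [e2, pow_succ]
      ring
    rw [e1, key]
    ring

/-- the middle trace, `q ≡ 3` modulo `4` -/
theorem trace_three (hF : ringChar F ≠ 2) (h4 : Fintype.card F % 4 = 3) (ν : ℕ) :
    (Fintype.card F : ℂ) ^ (2 * ν + 2) - (Aff F (2 * ν + 3) : ℂ) = 0 := by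
  have hψ := AddChar.FiniteField.primitiveChar_to_Complex_isPrimitive F
  set ψ := AddChar.FiniteField.primitiveChar_to_Complex F with hψd
  have hq : (Fintype.card F : ℂ) ≠ 0 := card_ne
  have hm1 : (et (-1 : F) : ℂ) = -1 := by
    rw [et_apply, quadraticChar_neg_one hF]
    have : ZMod.χ₄ (Fintype.card F : ZMod 4) = -1 := by
      have : ((Fintype.card F : ℕ) : ZMod 4) = 3 := by
        rw [← ZMod.natCast_mod, h4]
        rfl
      rw [this]
      rfl
    rw [this]
    simp
  have hS : ∀ t : F, t ≠ 0 → ∑ x : F, ψ (t * x ^ 4) = et t * gaussSum et ψ := by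
    intro t ht
    have h1 : ∑ x : F, ψ (t * x ^ 4) = ∑ y : F, ψ (t * y ^ 2) * (1 + et y) := by
      have := sum_sq hF (fun y => ψ (t * y ^ 2))
      simp only [← pow_mul] at this
      exact this
    have h2 : ∑ y : F, ψ (t * y ^ 2) * et y = 0 := by
      have h3 : ∑ y : F, ψ (t * y ^ 2) * et y = ∑ y : F, ψ (t * (-y) ^ 2) * et (-y) :=
        (Equiv.sum_comp (Equiv.neg F) (fun y => ψ (t * y ^ 2) * et y)).symm
      have h5 : ∑ y : F, ψ (t * (-y) ^ 2) * et (-y) = -∑ y : F, ψ (t * y ^ 2) * et y := by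
        rw [← Finset.sum_neg_distrib]
        refine Finset.sum_congr rfl fun y _ => ?_
        have e : (et (-y) : ℂ) = -et y := by
          rw [show (-y) = (-1) * y by ring, map_mul, hm1]
          ring
        rw [neg_sq, e]
        ring
      rw [h5] at h3
      have h6 : (2 : ℂ) * ∑ y : F, ψ (t * y ^ 2) * et y = 0 := by linear_combination h3
      exact (mul_eq_zero.mp h6).resolve_left two_ne_zero
    have h7 : ∑ y : F, ψ (t * y ^ 2) * (1 + et y) = ∑ y : F, ψ (t * y ^ 2) := by
      simp_rw [mul_add, mul_one]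
      rw [Finset.sum_add_distrib, h2, add_zero]
    rw [h1, h7, sum_sq hF (fun u => ψ (t * u))]
    simp_rw [mul_add, mul_one]
    rw [Finset.sum_add_distrib]
    have h0 : ∑ u : F, ψ (t * u) = 0 := by
      have := AddChar.sum_mulShift t hψ
      rw [if_neg ht, Nat.cast_zero] at this
      rw [← this]
      exact Finset.sum_congr rfl fun u _ => by rw [mul_comm]
    rw [h0, zero_add]
    have h8 := gaussSum_mulShift (et : MulChar F ℂ) ψ (Units.mk0 t ht)
    rw [← h8, Units.val_mk0, ← mul_assoc, ← pow_two, et_sq ht, one_mul]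
    unfold gaussSum
    refine Finset.sum_congr rfl fun u _ => ?_
    rw [AddChar.mulShift_apply, mul_comm]
  have hc := count_eq (2 * ν + 3) hψ (fun x : F => x ^ 4)
  have h0 : (∑ x : F, ψ (0 * x ^ 4)) = Fintype.card F := by simp
  have hsplit : ∑ t : F, (∑ x : F, ψ (t * x ^ 4)) ^ (2 * ν + 3) =
      (Fintype.card F : ℂ) ^ (2 * ν + 3) +
      ∑ t ∈ univ.filter (fun t : F => t ≠ 0), (∑ x : F, ψ (t * x ^ 4)) ^ (2 * ν + 3) := by
    rw [← Finset.sum_filter_add_sum_filter_not univ (fun t : F => t = 0)]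
    congr 1
    rw [Finset.filter_eq', if_pos (Finset.mem_univ _), Finset.sum_singleton, h0]
  have hz : ∑ t ∈ univ.filter (fun t : F => t ≠ 0), (∑ x : F, ψ (t * x ^ 4)) ^ (2 * ν + 3) = 0 := by
    have h1 : ∀ t ∈ univ.filter (fun t : F => t ≠ 0), (∑ x : F, ψ (t * x ^ 4)) ^ (2 * ν + 3) =
        et t * gaussSum et ψ ^ (2 * ν + 3) := by
      intro t ht
      have ht0 : t ≠ 0 := (Finset.mem_filter.mp ht).2
      rw [hS t ht0, mul_pow]
      congr 1
      have : 2 * ν + 3 = 2 * (ν + 1) + 1 := by ring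
      rw [this, pow_succ, pow_mul, et_sq ht0, one_pow, one_mul]
    rw [Finset.sum_congr rfl h1, ← Finset.sum_mul]
    have h2 : ∑ t ∈ univ.filter (fun t : F => t ≠ 0), (et t : ℂ) = ∑ t : F, (et t : ℂ) := by
      rw [Finset.sum_filter]
      refine Finset.sum_congr rfl fun t _ => ?_
      split_ifs with h
      · rfl
      · push Not at h
        rw [h, MulChar.map_zero]
    rw [h2, MulChar.sum_eq_zero_of_ne_one (et_ne_one hF), zero_mul]
  rw [hsplit, hz, add_zero] at hc
  have hA : (Nat.card {x : Fin (2 * ν + 3) → F // ∑ i, x i ^ 4 = 0} : ℂ) = Aff F (2 * ν + 3) := rfl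
  rw [hA] at hc
  apply mul_left_cancel₀ hq
  rw [mul_sub, hc]
  ring

end count

end Pool.Agent.Zk20.FQ
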