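import Pool.Agent.Zk20.FQ.Count3
import Pool.Agent.H82R3.EK.Euler
import Pool.Agent.H385R2.EcD4

/-!
The Euler factor of the middle cohomology of the odd-dimensional Fermat quartics (helper20).
-/

set_option autoImplicit false

open Finset

namespace Pool.Agent.Zk20.FQ

open Pool.Agent.H304R2.EC (aE)
open Pool.Agent.H82R3.EK (luc luc_eq)

lemma norm_root {p a : ℝ} (ha : a ^ 2 ≤ 4 * p) {α β : ℂ} (h1 : α + β = a) (h2 : α * β = p) :
    ‖α‖ ^ 2 = p := by
  have r1 := congrArg Complex.re h1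
  have i1 := congrArg Complex.im h1
  have r2 := congrArg Complex.re h2
  have i2 := congrArg Complex.im h2
  simp only [Complex.add_re, Complex.add_im, Complex.mul_re, Complex.mul_im, Complex.ofReal_re,
    Complex.ofReal_im] at r1 i1 r2 i2
  rw [← Complex.normSq_eq_norm_sq, Complex.normSq_apply]
  have hv : β.im = -α.im := by linarith
  rw [hv] at r2 i2
  have h3 : α.im * (β.re - α.re) = 0 := by linarith
  rcases mul_eq_zero.mp h3 with h | h
  · rw [h] at r2 ⊢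
    have h4 : (α.re - β.re) ^ 2 ≤ 0 := by
      have : (α.re - β.re) ^ 2 = (α.re + β.re) ^ 2 - 4 * (α.re * β.re) := by ring
      rw [this, r1]
      linarith
    have h5 : α.re - β.re = 0 := by
      have := sq_nonneg (α.re - β.re)
      exact pow_eq_zero_iff (two_ne_zero) |>.mp (le_antisymm h4 this)
    have h6 : β.re = α.re := by linarith
    rw [h6] at r2
    linarith
  · have h6 : β.re = α.re := by linarith
    rw [h6] at r2
    linarith

/-- the sign -/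
def sg (p : ℕ) : ℂ := if p % 8 = 5 then -1 else 1

lemma sg_norm (p : ℕ) : ‖sg p‖ = 1 := by
  unfold sg
  split_ifs <;> simp

lemma pow_even8 {p : ℕ} (hodd : p % 2 = 1) (m : ℕ) : p ^ (2 * m) % 8 = 1 := by
  have hp8 : p % 8 = 1 ∨ p % 8 = 3 ∨ p % 8 = 5 ∨ p % 8 = 7 := by omega
  have : p ^ 2 % 8 = 1 := by
    rw [Nat.pow_mod]
    rcases hp8 with h | h | h | h <;> rw [h]
  rw [pow_mul, Nat.pow_mod, this, one_pow]
  rfl

lemma pow_odd8 {p : ℕ} (hodd : p % 2 = 1) (m : ℕ) : p ^ (2 * m + 1) % 8 = p % 8 := by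
  rw [pow_succ, Nat.mul_mod, pow_even8 hodd m]
  omega

section loc
variable {p : ℕ} [Fact p.Prime]

/-- minus the reduced number of points: the trace of Frobenius on the middle cohomology,
`n = 2 ν + 1` -/
noncomputable def trc (ν p r : ℕ) [Fact p.Prime] : ℂ :=
  (((p : ℂ) ^ r) ^ (2 * ν + 2) - (Aff (GaloisField p r) (2 * ν + 3) : ℂ)) / ((p : ℂ) ^ r - 1)

theorem trc_eq (h2 : p ≠ 2) (ν r : ℕ) (hr : 1 ≤ r) {α β : ℂ} (hs : α + β = (aE p : ℂ))
    (hm : α * β = p) :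
    trc ν p r = ∑ j ∈ range (ν + 1), ((m0 (2 * ν + 3) j : ℂ) + sg p ^ r * m1 (2 * ν + 3) j) *
      (((p : ℂ) ^ (ν - j) * α ^ (2 * j + 1)) ^ r + ((p : ℂ) ^ (ν - j) * β ^ (2 * j + 1)) ^ r) := by
  classical
  have hp : p.Prime := Fact.out
  have hr0 : r ≠ 0 := by omega
  have hodd : p % 2 = 1 := hp.eq_two_or_odd.resolve_left h2
  let _ : Fintype (GaloisField p r) := Fintype.ofFinite _
  have hcard : Fintype.card (GaloisField p r) = p ^ r := by
    rw [← Nat.card_eq_fintype_card]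
    exact GaloisField.card p r hr0
  have hF : ringChar (GaloisField p r) ≠ 2 := by
    rw [← Algebra.ringChar_eq (ZMod p) (GaloisField p r), ZMod.ringChar_zmod_n]
    exact h2
  have hcc : (Fintype.card (GaloisField p r) : ℂ) = (p : ℂ) ^ r := by
    rw [hcard]; push_cast; rfl
  have hq1 : (p : ℂ) ^ r - 1 ≠ 0 := by
    rw [sub_ne_zero]
    have h3 : 1 < p ^ r := Nat.one_lt_pow hr0 hp.one_lt
    intro h
    have : p ^ r = 1 := by exact_mod_cast h
    omega
  -- the traces of the elliptic curve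
  have haE : aE p = (p : ℤ) - Nat.card {x : ZMod p × ZMod p // x.2 ^ 2 = x.1 ^ 3 - ((1 : ℕ) : ZMod p) ^ 2 * x.1} := by
    rw [← H385.aD_one, Pool.Agent.H82R3.EK.aD_eq]
  have hext := Pool.Agent.H82R3.EK.points_ext (p := p) h2 1
    (by intro h; exact hp.one_lt.ne' (Nat.dvd_one.mp h)) (k := GaloisField p r)
  rw [GaloisField.finrank p hr0, ← haE] at hext
  have hE : α ^ r + β ^ r = (Fintype.card (GaloisField p r) : ℂ) -
      (Nat.card {x : GaloisField p r × GaloisField p r // x.2 ^ 2 = x.1 ^ 3 - x.1} : ℂ) := by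
    have h3 := luc_eq (a := aE p) (q := (p : ℤ)) hs (by rw [hm]; push_cast; rfl) r
    rw [← h3, ← hext]
    push_cast
    simp only [one_pow, one_mul]
  have hmr : α ^ r * β ^ r = (Fintype.card (GaloisField p r) : ℂ) := by
    rw [← mul_pow, hm, hcc]
  unfold trc
  rw [div_eq_iff hq1]
  by_cases h4 : Fintype.card (GaloisField p r) % 4 = 1
  · obtain ⟨c, hc, h5⟩ := trace_one hF h4 ν hE hmr
    rw [hcc] at h5
    rw [h5, mul_comm]
    congr 1
    have hcr : c = sg p ^ r := by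
      rw [hc, hcard]
      unfold sg
      have hp8 : p % 8 = 1 ∨ p % 8 = 3 ∨ p % 8 = 5 ∨ p % 8 = 7 := by omega
      rw [hcard] at h4
      rcases Nat.even_or_odd' r with ⟨m, rfl | rfl⟩
      · have h6 : p ^ (2 * m) % 8 = 1 := pow_even8 hodd m
        rw [if_pos h6]
        split_ifs
        · rw [pow_mul]; norm_num
        · rw [one_pow]
      · have h6 : p ^ (2 * m + 1) % 8 = p % 8 := pow_odd8 hodd m
        rw [h6]
        have h7 : p ^ (2 * m + 1) % 4 = p % 4 := by omega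
        rw [h7] at h4
        by_cases h8 : p % 8 = 5
        · rw [if_neg (by omega), if_pos h8, pow_succ, pow_mul]
          norm_num
        · rw [if_pos (by omega), if_neg h8, one_pow]
    rw [hcr]
    refine Finset.sum_congr rfl fun j _ => ?_
    rw [mul_pow, mul_pow, ← pow_mul, ← pow_mul α, ← pow_mul β, ← pow_mul, ← pow_mul α, ← pow_mul β,
      mul_comm r (ν - j), mul_comm r (2 * j + 1)]
    ring
  · have h3 : Fintype.card (GaloisField p r) % 4 = 3 := by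
      have h5 : Fintype.card (GaloisField p r) % 2 = 1 := by
        rw [hcard, Nat.pow_mod, hodd, one_pow]
        rfl
      omega
    have h6 := trace_three hF h3 ν
    rw [hcc] at h6
    rw [h6]
    rw [hcard] at h3
    have hp8 : p % 8 = 1 ∨ p % 8 = 3 ∨ p % 8 = 5 ∨ p % 8 = 7 := by omega
    have hrodd : Odd r := by
      rcases Nat.even_or_odd' r with ⟨m, rfl | rfl⟩
      · exfalso
        have h7 : p ^ (2 * m) % 8 = 1 := pow_even8 hodd m
        omega
      · exact ⟨m, rfl⟩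
    have hp3 : p % 4 = 3 := by
      obtain ⟨m, rfl⟩ := hrodd
      have h7 : p ^ (2 * m + 1) % 8 = p % 8 := pow_odd8 hodd m
      omega
    have hab : α = -β := by
      rw [Pool.Agent.H304R2.EC.aE_eq p hp h2, Pool.Agent.H304R2.EC.an_inert p hp hp3, Int.cast_zero] at hs
      exact eq_neg_of_add_eq_zero_left hs
    rw [eq_comm, mul_eq_zero]
    left
    refine Finset.sum_eq_zero fun j _ => ?_
    have hj : Odd (2 * j + 1) := ⟨j, rfl⟩
    rw [hab, hj.neg_pow, mul_neg, hrodd.neg_pow]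
    ring

/-- the bound for the roots -/
lemma root_norm (h2 : p ≠ 2) {α β : ℂ} (hs : α + β = (aE p : ℂ)) (hm : α * β = p) :
    ‖α‖ ^ 2 = p ∧ ‖β‖ ^ 2 = p := by
  have hp : p.Prime := Fact.out
  have hb := Pool.Agent.H82R3.EK.aD_bound (D := 1) hp (by
    intro h
    rw [mul_one] at h
    exact h2 ((Nat.prime_dvd_prime_iff_eq hp Nat.prime_two).mp h))
  rw [H385.aD_one] at hb
  have hb2 : ((aE p : ℤ) : ℝ) ^ 2 ≤ 4 * p := by
    have h1 := sq_le_sq' (by linarith [neg_abs_le ((aE p : ℤ) : ℝ), abs_nonneg ((aE p : ℤ) : ℝ)])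
      ((le_abs_self ((aE p : ℤ) : ℝ)).trans hb)
    rw [mul_pow, Real.sq_sqrt (Nat.cast_nonneg p)] at h1
    linarith
  constructor
  · refine norm_root hb2 (β := β) ?_ ?_
    · rw [hs]; push_cast; rfl
    · rw [hm]; push_cast; rfl
  · refine norm_root hb2 (β := α) ?_ ?_
    · rw [add_comm, hs]; push_cast; rfl
    · rw [mul_comm, hm]; push_cast; rfl

end loc

/-- `exp` of the logarithmic series -/
lemma hasSum_log {z : ℂ} (hz : ‖z‖ < 1) :
    HasSum (fun r : ℕ => z ^ (r + 1) / ((r + 1 : ℕ) : ℂ)) (-Complex.log (1 - z)) := by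
  have h := Complex.hasSum_taylorSeries_neg_log hz
  have h2 := (hasSum_nat_add_iff' 1).mpr h
  simpa using h2

lemma exp_log {z : ℂ} (hz : ‖z‖ < 1) : Complex.exp (-Complex.log (1 - z)) = (1 - z)⁻¹ := by
  rw [Complex.exp_neg, Complex.exp_log]
  intro h
  have : z = 1 := by linear_combination -h
  rw [this, norm_one] at hz
  exact lt_irrefl _ hz

/-- the factor of the weight `j` -/
noncomputable def facj (ν j : ℕ) (α β : ℂ) (p : ℕ) (X : ℂ) : ℂ :=
  ((1 - (p : ℂ) ^ (ν - j) * α ^ (2 * j + 1) * X) * (1 - (p : ℂ) ^ (ν - j) * β ^ (2 * j + 1) * X))⁻¹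

/-- the Euler factor -/
theorem exp_trc {p : ℕ} [Fact p.Prime] (h2 : p ≠ 2) (ν : ℕ) {α β : ℂ} (hs : α + β = (aE p : ℂ))
    (hm : α * β = p) {s : ℂ} (hre : ((2 * ν + 1 : ℕ) : ℝ) / 2 < s.re) :
    Summable (fun r : ℕ => trc ν p (r + 1) * ((p : ℂ) ^ (-s)) ^ (r + 1) / ((r + 1 : ℕ) : ℂ)) ∧
    Complex.exp (∑' r : ℕ, trc ν p (r + 1) * ((p : ℂ) ^ (-s)) ^ (r + 1) / ((r + 1 : ℕ) : ℂ)) =
      ∏ j ∈ range (ν + 1), (facj ν j α β p ((p : ℂ) ^ (-s)) ^ m0 (2 * ν + 3) j *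
        facj ν j α β p (sg p * (p : ℂ) ^ (-s)) ^ m1 (2 * ν + 3) j) := by
  have hp : p.Prime := Fact.out
  set X : ℂ := (p : ℂ) ^ (-s) with hX
  have hp0 : (0 : ℝ) < p := by exact_mod_cast hp.pos
  have hp1 : (1 : ℝ) < p := by exact_mod_cast hp.one_lt
  have hXn : ‖X‖ = (p : ℝ) ^ (-s.re) := by
    rw [hX, Complex.norm_natCast_cpow_of_pos hp.pos, Complex.neg_re]
  obtain ⟨hα, hβ⟩ := root_norm h2 hs hm
  have hsmall : ∀ (j : ℕ) (γ w : ℂ), j ≤ ν → ‖γ‖ ^ 2 = p → ‖w‖ = ‖X‖ →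
      ‖(p : ℂ) ^ (ν - j) * γ ^ (2 * j + 1) * w‖ < 1 := by
    intro j γ w hj hγ hw
    have hγ' : ‖γ‖ = (p : ℝ) ^ (1 / 2 : ℝ) := by
      rw [← Real.sqrt_eq_rpow, ← hγ, Real.sqrt_sq (norm_nonneg _)]
    rw [norm_mul, norm_mul, norm_pow, norm_pow, Complex.norm_natCast, hw, hXn, hγ',
      ← Real.rpow_natCast, ← Real.rpow_natCast, ← Real.rpow_mul hp0.le, ← Real.rpow_add hp0,
      ← Real.rpow_add hp0]
    refine Real.rpow_lt_one_of_one_lt_of_neg hp1 ?_
    push_cast [Nat.cast_sub hj]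
    push_cast at hre
    linarith
  have hsX : ‖sg p * X‖ = ‖X‖ := by rw [norm_mul, sg_norm, one_mul]
  set L : ℂ → ℂ := fun z => -Complex.log (1 - z) with hL
  have hj : ∀ j ∈ range (ν + 1), HasSum (fun r : ℕ =>
      ((m0 (2 * ν + 3) j : ℂ) + sg p ^ (r + 1) * m1 (2 * ν + 3) j) *
      (((p : ℂ) ^ (ν - j) * α ^ (2 * j + 1)) ^ (r + 1) +
        ((p : ℂ) ^ (ν - j) * β ^ (2 * j + 1)) ^ (r + 1)) * X ^ (r + 1) / ((r + 1 : ℕ) : ℂ))
      ((m0 (2 * ν + 3) j : ℂ) * (L ((p : ℂ) ^ (ν - j) * α ^ (2 * j + 1) * X) +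
          L ((p : ℂ) ^ (ν - j) * β ^ (2 * j + 1) * X)) +
        (m1 (2 * ν + 3) j : ℂ) * (L ((p : ℂ) ^ (ν - j) * α ^ (2 * j + 1) * (sg p * X)) +
          L ((p : ℂ) ^ (ν - j) * β ^ (2 * j + 1) * (sg p * X)))) := by
    intro j hj
    have hj' : j ≤ ν := by have := Finset.mem_range.mp hj; omega
    have a1 := hasSum_log (hsmall j α X hj' hα rfl)
    have a2 := hasSum_log (hsmall j β X hj' hβ rfl)
    have a3 := hasSum_log (hsmall j α (sg p * X) hj' hα hsX)
    have a4 := hasSum_log (hsmall j β (sg p * X) hj' hβ hsX)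
    have h := ((a1.add a2).mul_left (m0 (2 * ν + 3) j : ℂ)).add
      ((a3.add a4).mul_left (m1 (2 * ν + 3) j : ℂ))
    refine (congrArg (fun g => HasSum g _) (funext fun r => ?_)).mp h
    rw [mul_pow _ X, mul_pow _ X, mul_pow _ (sg p * X), mul_pow _ (sg p * X), mul_pow (sg p) X]
    ring
  have hsum := hasSum_sum hj
  have hfun : (fun r : ℕ => trc ν p (r + 1) * X ^ (r + 1) / ((r + 1 : ℕ) : ℂ)) =
      fun r : ℕ => ∑ j ∈ range (ν + 1),
      ((m0 (2 * ν + 3) j : ℂ) + sg p ^ (r + 1) * m1 (2 * ν + 3) j) *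
      (((p : ℂ) ^ (ν - j) * α ^ (2 * j + 1)) ^ (r + 1) +
        ((p : ℂ) ^ (ν - j) * β ^ (2 * j + 1)) ^ (r + 1)) * X ^ (r + 1) / ((r + 1 : ℕ) : ℂ) := by
    funext r
    rw [trc_eq h2 ν (r + 1) (by omega) hs hm, Finset.sum_mul, Finset.sum_div]
  rw [hfun]
  refine ⟨hsum.summable, ?_⟩
  rw [hsum.tsum_eq, Complex.exp_sum]
  refine Finset.prod_congr rfl fun j hj => ?_
  have hj' : j ≤ ν := by have := Finset.mem_range.mp hj; omega
  rw [Complex.exp_add, Complex.exp_nat_mul, Complex.exp_nat_mul, Complex.exp_add, Complex.exp_add]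
  simp only [hL]
  rw [exp_log (hsmall j α X hj' hα rfl), exp_log (hsmall j β X hj' hβ rfl),
    exp_log (hsmall j α (sg p * X) hj' hα hsX), exp_log (hsmall j β (sg p * X) hj' hβ hsX),
    ← mul_inv, ← mul_inv]
  rfl

end Pool.Agent.Zk20.FQ
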