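import Pool.Agent.Zk20.FQ.Chi8
import Pool.Agent.Zk20.FQ.Local

/-!
The Hasse-Weil L-function of the Fermat quartics of odd dimension as a product (helper20).
-/

set_option autoImplicit false
set_option maxHeartbeats 4000000

open Complex Filter Topology Set

namespace Pool.Agent.Zk20.FQ

open Pool.Agent.H304R3.HK (tc bb CS UH ee)
open Pool.Agent.H304R2.EC (aE aE_eq an_inert)
open Pool.Agent.W354.PK (HCk psik bK LK tc_mul goodK uh_psik)
open Pool.Agent.W354.PK.TK (psik_apply)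
open Pool.Agent.W354.HW

theorem euler_8 {k : ℕ} (hk : Odd k) (α β : ℕ → ℂ)
    (hαβ : ∀ p : ℕ, p.Prime → p ≠ 2 → α p + β p = (aE p : ℂ) ∧ α p * β p = p) (s : ℂ)
    (hs : 1 < s.re) :
    HasProd (fun p : {p : ℕ // p.Prime ∧ p ≠ 2} =>
      ((1 - sg p * α p ^ k * ((p : ℕ) : ℂ) ^ (-(s + k / 2))) *
        (1 - sg p * β p ^ k * ((p : ℕ) : ℂ) ^ (-(s + k / 2))))⁻¹) (LK k (ch8 k) s) := by
  have hk0 : k ≠ 0 := by rintro rfl; simp at hk
  have hp11 : psik k (ch8 k) ⟨1, 1⟩ = 0 := by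
    rw [psik_apply]
    have h1 : (⟨1, 1⟩ : GaussianInt) ≠ 0 := by decide
    rw [if_neg h1, ch8_apply, chi8_apply]
    have h2 : (⟨1, 1⟩ : GaussianInt).norm = 2 := by decide
    rw [h2]
    have h3 : v8 2 = 0 := by unfold v8; norm_num
    rw [h3]
    ring
  have h := euler_gen (k := k) (by omega) (ch8_HC k)
    (fun p => sg p * α p ^ k / ((Real.sqrt p : ℝ) : ℂ) ^ k)
    (fun p => sg p * β p ^ k / ((Real.sqrt p : ℝ) : ℂ) ^ k) (by
      intro p hp h2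
      obtain ⟨ha, hb⟩ := hαβ p hp h2
      have hodd : p % 2 = 1 := hp.eq_two_or_odd.resolve_left h2
      have hp0 : (p : ℂ) ≠ 0 := Nat.cast_ne_zero.mpr hp.ne_zero
      have hc2 : ((Real.sqrt p : ℝ) : ℂ) ^ 2 = p := by
        rw [← Complex.ofReal_pow, Real.sq_sqrt (Nat.cast_nonneg p), Complex.ofReal_natCast]
      have hc0 : ((Real.sqrt p : ℝ) : ℂ) ≠ 0 := by
        intro h
        rw [h] at hc2
        exact hp0 (by rw [← hc2]; norm_num)
      have hsg : sg p * sg p = 1 := by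
        unfold sg
        split_ifs <;> norm_num
      constructor
      · rw [bb_ch8, b_prime hk p hp h2 (α p) (β p) ha hb, ← add_div, ← mul_add, mul_div_assoc]
        by_cases h3 : p % 4 = 3
        · have hab : α p = -β p := by
            rw [aE_eq p hp h2, an_inert p hp h3, Int.cast_zero] at ha
            exact eq_neg_of_add_eq_zero_left ha
          rw [hab, hk.neg_pow, neg_add_cancel, zero_div, mul_zero, mul_zero]
        · congr 1
          unfold sg v8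
          by_cases h8 : p % 8 = 5
          · rw [if_pos h8, if_neg (by omega), if_pos (by omega)]
          · rw [if_neg h8, if_pos (by omega)]
      · have hee : ee (psik k (ch8 k)) p = 1 := by
          rw [← ee_one hk p hp h2]
          unfold ee
          rw [psik_ch8_nat k p hodd]
        rw [hee]
        have : sg p * α p ^ k / ((Real.sqrt p : ℝ) : ℂ) ^ k *
            (sg p * β p ^ k / ((Real.sqrt p : ℝ) : ℂ) ^ k) =
            (sg p * sg p) * (α p * β p) ^ k / (((Real.sqrt p : ℝ) : ℂ) ^ 2) ^ k := by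
          rw [← pow_mul, mul_comm 2 k, pow_mul, mul_pow]
          field_simp
        rw [this, hsg, hb, hc2, one_mul, div_self (pow_ne_zero _ hp0)]) s hs
  rw [hp11, zero_mul, sub_zero, one_mul] at h
  refine (congrArg (fun g => HasProd g (LK k (ch8 k) s)) (funext fun p => ?_)).mp h
  obtain ⟨p, hp, h2⟩ := p
  simp only
  have hp0 : (p : ℂ) ≠ 0 := Nat.cast_ne_zero.mpr hp.ne_zero
  have hcX : (p : ℂ) ^ (-(s + k / 2)) = (p : ℂ) ^ (-s) / ((Real.sqrt p : ℝ) : ℂ) ^ k := by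
    rw [sqrt_cast, ← Complex.cpow_nat_mul, neg_add, Complex.cpow_add _ _ hp0,
      Complex.cpow_neg _ ((k : ℂ) / 2), div_eq_mul_inv]
    congr 3
    ring
  rw [hcX]
  congr 2 <;> ring

/-- the L-function of the middle cohomology of the Fermat quartic of dimension `2 ν + 1`, shifted
to the critical line `Re s = 1/2` -/
noncomputable def LF (ν : ℕ) (s : ℂ) : ℂ :=
  ∏ j ∈ Finset.range (ν + 1), (LK (2 * j + 1) (chiE ^ (2 * j + 1)) s ^ m0 (2 * ν + 3) j *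
    LK (2 * j + 1) (ch8 (2 * j + 1)) s ^ m1 (2 * ν + 3) j)

lemma hasProd_pow' {ι : Type*} {f : ι → ℂ} {a : ℂ} (h : HasProd f a) (c : ℕ) :
    HasProd (fun i => f i ^ c) (a ^ c) := by
  induction c with
  | zero => simpa using hasProd_one
  | succ c ih =>
    simp only [pow_succ]
    exact ih.mul h

/-- the Euler product through the number of points -/
theorem LF_prod (ν : ℕ) (s : ℂ) (hs : 1 + ((2 * ν + 1 : ℕ) : ℝ) / 2 < s.re) :
    (∀ (p : ℕ) [Fact p.Prime], p ≠ 2 →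
      Summable (fun r : ℕ => trc ν p (r + 1) * ((p : ℂ) ^ (-s)) ^ (r + 1) / ((r + 1 : ℕ) : ℂ))) ∧
    HasProd (fun p : {p : ℕ // p.Prime ∧ p ≠ 2} =>
      haveI : Fact (p : ℕ).Prime := ⟨p.2.1⟩
      Complex.exp (∑' r : ℕ, trc ν p (r + 1) * (((p : ℕ) : ℂ) ^ (-s)) ^ (r + 1) / ((r + 1 : ℕ) : ℂ)))
      (LF ν (s - ((2 * ν + 1 : ℕ) : ℂ) / 2)) := by
  have hroots : ∀ p : ℕ, ∃ αβ : ℂ × ℂ, αβ.1 + αβ.2 = (aE p : ℂ) ∧ αβ.1 * αβ.2 = p := by
    intro p
    obtain ⟨α, β, h1, h2⟩ := Pool.Agent.H82R3.EK.exists_roots (aE p) (p : ℤ)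
    exact ⟨(α, β), h1, by rw [h2]; push_cast; rfl⟩
  choose αβ hαβ using hroots
  have hre' : ((2 * ν + 1 : ℕ) : ℝ) / 2 < s.re := by linarith
  refine ⟨fun p _ h2 => (exp_trc h2 ν (hαβ p).1 (hαβ p).2 hre').1, ?_⟩
  have hfun : (fun p : {p : ℕ // p.Prime ∧ p ≠ 2} =>
      haveI : Fact (p : ℕ).Prime := ⟨p.2.1⟩
      Complex.exp (∑' r : ℕ, trc ν p (r + 1) * (((p : ℕ) : ℂ) ^ (-s)) ^ (r + 1) / ((r + 1 : ℕ) : ℂ))) =
      fun p : {p : ℕ // p.Prime ∧ p ≠ 2} => ∏ j ∈ Finset.range (ν + 1),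
        (((1 - (αβ p).1 ^ (2 * j + 1) * ((p : ℕ) : ℂ) ^
            (-(s - ((2 * ν + 1 : ℕ) : ℂ) / 2 + ((2 * j + 1 : ℕ) : ℂ) / 2))) *
          (1 - (αβ p).2 ^ (2 * j + 1) * ((p : ℕ) : ℂ) ^
            (-(s - ((2 * ν + 1 : ℕ) : ℂ) / 2 + ((2 * j + 1 : ℕ) : ℂ) / 2))))⁻¹ ^ m0 (2 * ν + 3) j *
        ((1 - sg p * (αβ p).1 ^ (2 * j + 1) * ((p : ℕ) : ℂ) ^
            (-(s - ((2 * ν + 1 : ℕ) : ℂ) / 2 + ((2 * j + 1 : ℕ) : ℂ) / 2))) *
          (1 - sg p * (αβ p).2 ^ (2 * j + 1) * ((p : ℕ) : ℂ) ^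
            (-(s - ((2 * ν + 1 : ℕ) : ℂ) / 2 + ((2 * j + 1 : ℕ) : ℂ) / 2))))⁻¹ ^ m1 (2 * ν + 3) j) := by
    funext p
    obtain ⟨p, hp, h2⟩ := p
    haveI : Fact p.Prime := ⟨hp⟩
    have hp0 : (p : ℂ) ≠ 0 := Nat.cast_ne_zero.mpr hp.ne_zero
    refine (exp_trc h2 ν (hαβ p).1 (hαβ p).2 hre').2.trans ?_
    refine Finset.prod_congr rfl fun j hj => ?_
    have hj' : j ≤ ν := by have := Finset.mem_range.mp hj; omega
    have hX : (p : ℂ) ^ (-(s - ((2 * ν + 1 : ℕ) : ℂ) / 2 + ((2 * j + 1 : ℕ) : ℂ) / 2)) =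
        (p : ℂ) ^ (ν - j) * (p : ℂ) ^ (-s) := by
      rw [← Complex.cpow_natCast, ← Complex.cpow_add _ _ hp0]
      congr 1
      push_cast [Nat.cast_sub hj']
      ring
    simp only
    rw [hX]
    unfold facj
    congr 3
    · congr 1 <;> ring
    · congr 1 <;> ring
  rw [hfun]
  unfold LF
  have hre : (1 : ℝ) < (s - ((2 * ν + 1 : ℕ) : ℂ) / 2).re := by
    have : (((2 * ν + 1 : ℕ) : ℂ) / 2).re = ((2 * ν + 1 : ℕ) : ℝ) / 2 := by
      rw [show (((2 * ν + 1 : ℕ) : ℂ) / 2) = (((((2 * ν + 1 : ℕ) : ℝ)) / 2 : ℝ) : ℂ) by push_cast; rfl]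
      exact Complex.ofReal_re _
    rw [Complex.sub_re, this]
    linarith
  refine hasProd_prod fun j _ => ?_
  have hj : Odd (2 * j + 1) := ⟨j, rfl⟩
  have e1 := euler_k hj (fun p => (αβ p).1) (fun p => (αβ p).2) (fun p _ _ => hαβ p)
    (s - ((2 * ν + 1 : ℕ) : ℂ) / 2) hre
  have e2 := euler_8 hj (fun p => (αβ p).1) (fun p => (αβ p).2) (fun p _ _ => hαβ p)
    (s - ((2 * ν + 1 : ℕ) : ℂ) / 2) hre
  exact (hasProd_pow' e1 _).mul (hasProd_pow' e2 _)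

end Pool.Agent.Zk20.FQ
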