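import Pool.Agent.Zk20.FQ.FKS
import Pool.Agent.Zk20.FQ.EulerO
import Pool.Agent.W354.HW.Main

/-!
Zeros of the Hasse-Weil L-functions of the Fermat quartics of odd dimension (helper20).
-/

open Complex Filter Topology Set MeasureTheory
open H370 (zset mult NN Nd Ns)

set_option autoImplicit false
set_option maxHeartbeats 4000000

namespace Pool.Agent.Zk20.FQ

open Pool.Agent.H304R3.HK (tc one_le_norm_tc tc_star_mul)
open Pool.Agent.W354.PK (HCk LK aK bK lck lck_logC goodK)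
open Pool.Agent.W354.HW
open Pool.Agent.W354.FK (Wt)

lemma Ns_le_NN (F : ℂ → ℂ) (T1 T2 : ℝ) (hfin : (zset F T1 T2).Finite) : Ns F T1 T2 ≤ NN F T1 T2 := by
  classical
  unfold Ns NN
  rw [finsum_mem_eq_finite_toFinset_sum _ hfin]
  have hsub : {s : ℂ | s ∈ zset F T1 T2 ∧ s.re = 1 / 2 ∧ mult F s = 1} ⊆ zset F T1 T2 :=
    fun s hs => hs.1
  have hf2 := hfin.subset hsub
  rw [Set.ncard_eq_toFinset_card _ hf2, Finset.card_eq_sum_ones]
  calc ∑ s ∈ hf2.toFinset, 1 = ∑ s ∈ hf2.toFinset, mult F s := by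
        refine Finset.sum_congr rfl (fun s hs => ?_)
        rw [Set.Finite.mem_toFinset] at hs
        exact hs.2.2.symm
    _ ≤ ∑ s ∈ hfin.toFinset, mult F s := by
        refine Finset.sum_le_sum_of_subset ?_
        exact Set.Finite.toFinset_subset_toFinset.mpr hsub

/-- the two families of L-functions -/
noncomputable def FF (b : Bool) (l : ℕ) : ℂ → ℂ :=
  bif b then LK (2 * l + 1) (ch8 (2 * l + 1)) else LK (2 * l + 1) (chiE ^ (2 * l + 1))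

/-- the two multiplicities -/
def mm2 (b : Bool) (N l : ℕ) : ℕ := bif b then m1 N l else m0 N l

/-- the modulus -/
def qq (b : Bool) : GaussianInt := bif b then q4 else qE

/-- the character -/
noncomputable def ch (b : Bool) (k : ℕ) : GaussianInt →* ℂ := bif b then ch8 k else chiE ^ k

lemma FF_eq (b : Bool) (l : ℕ) : FF b l = LK (2 * l + 1) (ch b (2 * l + 1)) := by
  cases b <;> rfl

lemma ch_HC (b : Bool) {k : ℕ} (hk : Odd k) : HCk k (qq b) (ch b k) := by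
  cases b
  · exact chiE_pow_HC hk
  · exact ch8_HC k

lemma ch_shift (b : Bool) (a j : ℕ) : ch b (2 * a + 1 + 4 * j) = ch b (2 * a + 1) := by
  cases b
  · exact chi_shift a j
  · show ch8 (2 * a + 1 + 4 * j) = ch8 (2 * a + 1)
    unfold ch8
    rw [chi_shift]

lemma FF_shift (b : Bool) (a j : ℕ) :
    FF b (a + 2 * j) = LK (2 * a + 1 + 4 * j) (ch b (2 * a + 1)) := by
  rw [FF_eq]
  have : 2 * (a + 2 * j) + 1 = 2 * a + 1 + 4 * j := by ring
  rw [this, ch_shift]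

lemma qq_norm (b : Bool) : ‖tc (qq b)‖ ≤ 4 := by
  have h : ‖tc (qq b)‖ ^ 2 ≤ 16 := by
    rw [tc_star_mul]
    cases b
    · have : (qq false).norm = 8 := by decide
      rw [this]; norm_num
    · have : (qq true).norm = 16 := by decide
      rw [this]; norm_num
  nlinarith [norm_nonneg (tc (qq b))]

lemma FF_diff (b : Bool) (l : ℕ) : Differentiable ℂ (FF b l) := by
  obtain ⟨A, hA, hgood⟩ := goodK
  rw [FF_eq]
  exact (hgood (2 * l + 1) (qq b) _ (by omega) (ch_HC b (odd_l l))).1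

lemma FF_fin (b : Bool) (l : ℕ) (T1 T2 : ℝ) (hT : 1 ≤ T1) : (zset (FF b l) T1 T2).Finite := by
  obtain ⟨A, hA, hgood⟩ := goodK
  rw [FF_eq]
  have H := ch_HC b (odd_l l)
  exact Pool.Agent.W354.E.zset_finite_E hA
    (lck_logC (2 * l + 1) (one_le_norm_tc H.q0))
    (hgood (2 * l + 1) (qq b) _ (by omega) H).2.2.2 T1 T2 hT

lemma FF_order (b : Bool) (l : ℕ) (s : ℂ) : analyticOrderAt (FF b l) s ≠ ⊤ := by
  obtain ⟨A, hA, hgood⟩ := goodK
  have hG := (hgood (2 * l + 1) (qq b) _ (by omega) (ch_HC b (odd_l l))).2.2.2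
  refine H370.Loc.order_ne_top (K := Set.univ) isPreconnected_univ (c := ⟨2, 1⟩)
    (fun z _ => (FF_diff b l).analyticAt z) (Set.mem_univ _) ?_ (Set.mem_univ _)
  rw [FF_eq]
  exact hG.nzr ⟨2, 1⟩ (by norm_num) (by norm_num)

lemma sum_cut (g : ℕ → ℝ) (m ν : ℕ) (hmν : m ≤ ν) (hg : ∀ j, m < j → g j = 0) :
    ∑ j ∈ Finset.range (ν + 1), g j = ∑ i ∈ Finset.range (m + 1), g (0 + 2 * i) +
      ∑ i ∈ Finset.range (m + 1), g (1 + 2 * i) := by
  rw [← sum_parity g (m + 1)]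
  have e2 : ∀ M, m + 1 ≤ M → ∑ l ∈ Finset.range M, g l = ∑ l ∈ Finset.range (m + 1), g l := by
    intro M hM
    symm
    refine Finset.sum_subset (Finset.range_mono hM) (fun l _ hl => ?_)
    rw [Finset.mem_range, not_lt] at hl
    exact hg l (by omega)
  rw [e2 (ν + 1) (by omega), e2 (2 * (m + 1)) (by omega)]

/-- the multiplicities are nearly half of the weights -/
lemma mm2_near (b : Bool) (ν l : ℕ) :
    |(mm2 b (2 * ν + 3) l : ℝ) - tw (2 * ν + 3) l / 2| ≤ 7 ^ (ν + 1) / 2 := by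
  have h := m_diff (ν + 1) l
  have e : 2 * (ν + 1) + 1 = 2 * ν + 3 := by ring
  rw [e] at h
  rw [tw_eq]
  cases b
  · show |(m0 (2 * ν + 3) l : ℝ) - _| ≤ _
    have : (m0 (2 * ν + 3) l : ℝ) - ((m0 (2 * ν + 3) l : ℝ) + m1 (2 * ν + 3) l) / 2 =
      ((m0 (2 * ν + 3) l : ℝ) - m1 (2 * ν + 3) l) / 2 := by ring
    rw [this, abs_div, abs_of_pos (by norm_num : (0 : ℝ) < 2)]
    linarith
  · show |(m1 (2 * ν + 3) l : ℝ) - _| ≤ _
    have : (m1 (2 * ν + 3) l : ℝ) - ((m0 (2 * ν + 3) l : ℝ) + m1 (2 * ν + 3) l) / 2 =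
      -(((m0 (2 * ν + 3) l : ℝ) - m1 (2 * ν + 3) l) / 2) := by ring
    rw [this, abs_neg, abs_div, abs_of_pos (by norm_num : (0 : ℝ) < 2)]
    linarith

/-- comparing the two sums -/
lemma near_sum {n : ℕ} (w μ N G : ℕ → ℝ) {e B δ X : ℝ} (he : 0 ≤ e) (hB : 0 ≤ B)
    (hδ : 0 ≤ δ) (hμ : ∀ i ∈ Finset.range n, |μ i - w i / 2| ≤ δ / 2)
    (hN : ∀ i ∈ Finset.range n, 0 ≤ N i ∧ N i ≤ B) (hG : ∀ i ∈ Finset.range n, 0 ≤ G i ∧ G i ≤ N i)
    (h1 : (0.6725 + e) * ∑ i ∈ Finset.range n, w i * N i ≤ ∑ i ∈ Finset.range n, w i * G i)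
    (h2 : X ≤ ∑ i ∈ Finset.range n, w i * N i) (h3 : n * (δ * B) ≤ e * X) (h4 : 2 * (n * (δ * B)) ≤ X) :
    0.6725 * ∑ i ∈ Finset.range n, μ i * N i ≤ ∑ i ∈ Finset.range n, μ i * G i ∧
      X / 4 ≤ ∑ i ∈ Finset.range n, μ i * N i := by
  have k1 : ∑ i ∈ Finset.range n, (w i / 2 * (G i - 0.6725 * N i) - δ / 2 * B) ≤
      ∑ i ∈ Finset.range n, μ i * (G i - 0.6725 * N i) := by
    refine Finset.sum_le_sum fun i hi => ?_
    have a1 := abs_le.mp (hμ i hi)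
    obtain ⟨b1, b2⟩ := hN i hi
    obtain ⟨c1, c2⟩ := hG i hi
    have d1 : |G i - 0.6725 * N i| ≤ B := by
      rw [abs_le]
      constructor <;> norm_num <;> linarith
    have d2 : |(μ i - w i / 2) * (G i - 0.6725 * N i)| ≤ δ / 2 * B := by
      rw [abs_mul]
      exact mul_le_mul (hμ i hi) d1 (abs_nonneg _) (by positivity)
    have d3 := (abs_le.mp d2).1
    linarith
  have k2 : ∑ i ∈ Finset.range n, (w i / 2 * N i - δ / 2 * B) ≤ ∑ i ∈ Finset.range n, μ i * N i := by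
    refine Finset.sum_le_sum fun i hi => ?_
    obtain ⟨b1, b2⟩ := hN i hi
    have d2 : |(μ i - w i / 2) * N i| ≤ δ / 2 * B := by
      rw [abs_mul, abs_of_nonneg b1]
      exact mul_le_mul (hμ i hi) b2 b1 (by positivity)
    have d3 := (abs_le.mp d2).1
    linarith
  rw [Finset.sum_sub_distrib, Finset.sum_const, Finset.card_range, nsmul_eq_mul] at k1 k2
  have e1 : ∑ i ∈ Finset.range n, w i / 2 * (G i - 0.6725 * N i) =
      (∑ i ∈ Finset.range n, w i * G i - 0.6725 * ∑ i ∈ Finset.range n, w i * N i) / 2 := by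
    rw [Finset.mul_sum, ← Finset.sum_sub_distrib, Finset.sum_div]
    exact Finset.sum_congr rfl fun i _ => by ring
  have e2 : ∑ i ∈ Finset.range n, μ i * (G i - 0.6725 * N i) =
      ∑ i ∈ Finset.range n, μ i * G i - 0.6725 * ∑ i ∈ Finset.range n, μ i * N i := by
    rw [Finset.mul_sum, ← Finset.sum_sub_distrib]
    exact Finset.sum_congr rfl fun i _ => by ring
  have e3 : ∑ i ∈ Finset.range n, w i / 2 * N i = (∑ i ∈ Finset.range n, w i * N i) / 2 := by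
    rw [Finset.sum_div]
    exact Finset.sum_congr rfl fun i _ => by ring
  rw [e1, e2] at k1
  rw [e3] at k2
  have e4 : (n : ℝ) * (δ / 2 * B) = (n * (δ * B)) / 2 := by ring
  rw [e4] at k1 k2
  have k3 : e * X ≤ e * ∑ i ∈ Finset.range n, w i * N i := mul_le_mul_of_nonneg_left h2 he
  constructor
  · linarith
  · linarith

/-- the exponential gain -/
lemma gain (K : ℝ) : ∃ ν0 : ℕ, ∀ ν : ℕ, ν0 ≤ ν →
    K * (((2 * ν + 3) / 4 + 1 : ℕ) * (7 : ℝ) ^ (ν + 1)) ≤ tw (2 * ν + 3) 0 := by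
  have h1 : Tendsto (fun n : ℕ => (n : ℝ) ^ 2 * (7 / 9 : ℝ) ^ n) atTop (𝓝 0) :=
    tendsto_pow_const_mul_const_pow_of_lt_one 2 (by norm_num) (by norm_num)
  have h2 : ∀ᶠ n : ℕ in atTop, (n : ℝ) ^ 2 * (7 / 9 : ℝ) ^ n < 1 / (100 * (|K| + 1)) :=
    h1.eventually (gt_mem_nhds (by positivity))
  obtain ⟨n0, hn0⟩ := eventually_atTop.mp h2
  refine ⟨max n0 1, fun ν hν => ?_⟩
  have hν1 : 1 ≤ ν := (le_max_right _ _).trans hν
  have h3 := hn0 ν ((le_max_left _ _).trans hν)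
  have hν1' : (1 : ℝ) ≤ ν := by exact_mod_cast hν1
  have hs := tw_size (2 * ν + 3) (by omega)
  push_cast at hs
  have h9 : (0 : ℝ) < 9 ^ ν := by positivity
  have e1 : (3 : ℝ) ^ (2 * ν + 3) = 27 * 9 ^ ν := by
    rw [pow_add, pow_mul]
    norm_num
    ring
  have e2 : (7 / 9 : ℝ) ^ ν = 7 ^ ν / 9 ^ ν := div_pow _ _ _
  rw [e1] at hs
  rw [e2, mul_div_assoc', div_lt_div_iff₀ h9 (by positivity), one_mul] at h3
  -- `100 (|K| + 1) ν² 7^ν < 9^ν`
  have h4 : (((2 * ν + 3) / 4 + 1 : ℕ) : ℝ) ≤ 3 * ν := by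
    have : (2 * ν + 3) / 4 + 1 ≤ 3 * ν := by omega
    exact_mod_cast this
  have hK : K ≤ |K| := le_abs_self K
  have hK0 : 0 ≤ |K| := abs_nonneg K
  have h5 : K * (((2 * ν + 3) / 4 + 1 : ℕ) * (7 : ℝ) ^ (ν + 1)) ≤ |K| * (3 * ν * (7 * 7 ^ ν)) := by
    have h7 : (0 : ℝ) < 7 ^ ν := by positivity
    have e3 : (7 : ℝ) ^ (ν + 1) = 7 * 7 ^ ν := by ring
    rw [e3]
    calc K * ((((2 * ν + 3) / 4 + 1 : ℕ) : ℝ) * (7 * 7 ^ ν)) ≤
        |K| * ((((2 * ν + 3) / 4 + 1 : ℕ) : ℝ) * (7 * 7 ^ ν)) :=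
          mul_le_mul_of_nonneg_right hK (by positivity)
      _ ≤ _ := mul_le_mul_of_nonneg_left (mul_le_mul_of_nonneg_right h4 (by positivity)) hK0
  have h6 : 27 * (9 : ℝ) ^ ν ≤ 60 * ν * tw (2 * ν + 3) 0 := by
    refine hs.trans (mul_le_mul_of_nonneg_right ?_ (tw_nonneg _ _))
    linarith
  -- combine
  have h7 : 0 ≤ (ν : ℝ) ^ 2 * 7 ^ ν := by positivity
  have h8 : |K| * (21 * (ν : ℝ) ^ 2 * 7 ^ ν) ≤ 9 ^ ν / 4 := by nlinarith
  have h10 : ν * (|K| * (3 * ν * (7 * 7 ^ ν))) ≤ ν * tw (2 * ν + 3) 0 := by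
    have e4 : (ν : ℝ) * (|K| * (3 * ν * (7 * 7 ^ ν))) = |K| * (21 * (ν : ℝ) ^ 2 * 7 ^ ν) := by ring
    rw [e4]
    nlinarith
  exact h5.trans (le_of_mul_le_mul_left h10 (by linarith))

/-- the weighted inequality -/
theorem main_fq : ∃ T0 η : ℝ, 1 ≤ T0 ∧ 0 < η ∧ ∀ (ν : ℕ) (T : ℝ), T0 ≤ T →
    ((2 * ν + 1 : ℕ) : ℝ) ^ (1 / 2 - η) ≤ T → T ≤ ((2 * ν + 1 : ℕ) : ℝ) ^ (1 / 2 + η) →
    ∀ b : Bool,
    (0.6725 * ∑ l ∈ Finset.range (ν + 1), (mm2 b (2 * ν + 3) l : ℝ) * (NN (FF b l) T (2 * T) : ℝ) ≤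
      ∑ l ∈ Finset.range (ν + 1), (mm2 b (2 * ν + 3) l : ℝ) * (Ns (FF b l) T (2 * T) : ℝ)) ∧
    0 < ∑ l ∈ Finset.range (ν + 1), (mm2 b (2 * ν + 3) l : ℝ) * (NN (FF b l) T (2 * T) : ℝ) := by
  obtain ⟨e, C, T1, h, he0, he1, hC, hT1, hh0, hh1, H⟩ := fks
  obtain ⟨ν0, hν0⟩ := gain (512 * C / e + 512 * C)
  refine ⟨max (max T1 (4 ^ (1 / h))) (max (2 * 2 ^ (2 / h)) (2 * ν0 + 3)), h / 2,
    le_max_of_le_left (le_max_of_le_left hT1), by positivity, ?_⟩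
  intro ν T hT h1 h2 b
  have hT1' : T1 ≤ T := (le_max_left _ _).trans ((le_max_left _ _).trans hT)
  have hT4 : (4 : ℝ) ^ (1 / h) ≤ T := (le_max_right _ _).trans ((le_max_left _ _).trans hT)
  have hT2 : 2 * (2 : ℝ) ^ (2 / h) ≤ T := (le_max_left _ _).trans ((le_max_right _ _).trans hT)
  have hTν : (2 * ν0 + 3 : ℝ) ≤ T := (le_max_right _ _).trans ((le_max_right _ _).trans hT)
  have hT1'' : 1 ≤ T := hT1.trans hT1'
  have hTp : 0 < T := by linarith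
  set n : ℝ := ((2 * ν + 1 : ℕ) : ℝ) with hn
  have hn1 : 1 ≤ n := by rw [hn]; exact_mod_cast (by omega : 1 ≤ 2 * ν + 1)
  have hTn : T ≤ n := by
    refine h2.trans ?_
    calc n ^ (1 / 2 + h / 2) ≤ n ^ (1 : ℝ) := Real.rpow_le_rpow_of_exponent_le hn1 (by linarith)
      _ = n := Real.rpow_one n
  have hνν : ν0 ≤ ν := by
    have : (2 * ν0 + 3 : ℝ) ≤ ((2 * ν + 1 : ℕ) : ℝ) := hTν.trans hTn
    have h3 : 2 * ν0 + 3 ≤ 2 * ν + 1 := by exact_mod_cast this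
    omega
  have hν1 : 1 ≤ ν := by
    have : (2 * ν0 + 3 : ℝ) ≤ ((2 * ν + 1 : ℕ) : ℝ) := hTν.trans hTn
    have h3 : 2 * ν0 + 3 ≤ 2 * ν + 1 := by exact_mod_cast this
    omega
  set m : ℕ := (2 * ν + 3) / 4 with hm
  have hmν : m ≤ ν := by omega
  have hq : ‖tc (qq b)‖ ≤ T ^ h := by
    have e1 : (4 : ℝ) ≤ T ^ h := by
      have := Real.rpow_le_rpow (by positivity) hT4 hh0.le
      rw [← Real.rpow_mul (by norm_num), one_div, inv_mul_cancel₀ hh0.ne', Real.rpow_one] at this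
      exact this
    exact (qq_norm b).trans e1
  have w1 : ((2 * m + 1 : ℕ) : ℝ) ^ (1 / 2 - h) ≤ T := by
    have h3 : ((2 * m + 1 : ℕ) : ℝ) ≤ n := by
      rw [hn]
      exact_mod_cast (by omega : 2 * m + 1 ≤ 2 * ν + 1)
    calc ((2 * m + 1 : ℕ) : ℝ) ^ (1 / 2 - h) ≤ n ^ (1 / 2 - h) :=
          Real.rpow_le_rpow (by positivity) h3 (by linarith)
      _ ≤ n ^ (1 / 2 - h / 2) := Real.rpow_le_rpow_of_exponent_le hn1 (by linarith)
      _ ≤ T := h1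
  have w2 : T ≤ ((2 * m + 1 : ℕ) : ℝ) ^ (1 / 2 + h) := by
    set M : ℝ := ((2 * m + 1 : ℕ) : ℝ) with hM
    have hM1 : 1 ≤ M := by rw [hM]; exact_mod_cast (by omega : 1 ≤ 2 * m + 1)
    have h3 : n ≤ 2 * M := by
      rw [hn, hM]
      exact_mod_cast (by omega : 2 * ν + 1 ≤ 2 * (2 * m + 1))
    have h4 : (2 : ℝ) ^ (2 / h) ≤ M := by linarith
    have h5 : (2 : ℝ) ≤ M ^ (h / 2) := by
      have := Real.rpow_le_rpow (by positivity) h4 (by positivity : 0 ≤ h / 2)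
      rw [← Real.rpow_mul (by norm_num)] at this
      have e1 : 2 / h * (h / 2) = 1 := by field_simp
      rw [e1, Real.rpow_one] at this
      exact this
    calc T ≤ n ^ (1 / 2 + h / 2) := h2
      _ ≤ (2 * M) ^ (1 / 2 + h / 2) := Real.rpow_le_rpow (by linarith) h3 (by linarith)
      _ = 2 ^ (1 / 2 + h / 2) * M ^ (1 / 2 + h / 2) := Real.mul_rpow (by norm_num) (by linarith)
      _ ≤ 2 ^ (1 : ℝ) * M ^ (1 / 2 + h / 2) := by
          refine mul_le_mul_of_nonneg_right ?_ (by positivity)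
          exact Real.rpow_le_rpow_of_exponent_le (by norm_num) (by linarith)
      _ = 2 * M ^ (1 / 2 + h / 2) := by rw [Real.rpow_one]
      _ ≤ M ^ (h / 2) * M ^ (1 / 2 + h / 2) := mul_le_mul_of_nonneg_right h5 (by positivity)
      _ = M ^ (1 / 2 + h) := by
          rw [← Real.rpow_add (by linarith)]
          congr 1
          ring
  have hlT : 0 ≤ Real.log T := Real.log_nonneg hT1''
  have hW0 : 0 < tw (2 * ν + 3) 0 := by
    have := tw_size (2 * ν + 3) (by omega)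
    have h3 : (0 : ℝ) < 3 ^ (2 * ν + 3) := by positivity
    by_contra hc
    push Not at hc
    have h4 : 4 * (2 * ((2 * ν + 3 : ℕ) : ℝ) + 1) * tw (2 * ν + 3) 0 ≤ 0 :=
      mul_nonpos_of_nonneg_of_nonpos (by positivity) hc
    linarith
  have hgain := hν0 ν hνν
  have key : ∀ a : ℕ, a ≤ 1 →
      (0.6725 * ∑ i ∈ Finset.range (m + 1), (mm2 b (2 * ν + 3) (a + 2 * i) : ℝ) *
          (NN (FF b (a + 2 * i)) T (2 * T) : ℝ) ≤
        ∑ i ∈ Finset.range (m + 1), (mm2 b (2 * ν + 3) (a + 2 * i) : ℝ) *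
          (Ns (FF b (a + 2 * i)) T (2 * T) : ℝ)) ∧
      0 < ∑ i ∈ Finset.range (m + 1), (mm2 b (2 * ν + 3) (a + 2 * i) : ℝ) *
          (NN (FF b (a + 2 * i)) T (2 * T) : ℝ) := by
    intro a ha
    obtain ⟨k1, k2, k3, k4⟩ := H (2 * a + 1) a (qq b) (ch b (2 * a + 1)) T m (tw (2 * ν + 3))
      (tw_wt (2 * ν + 3)) ha (by omega) (by omega) (ch_HC b (odd_l a)) hT1' hq w1 w2
    have hlT' : 0 < Real.log T := Real.log_pos (by linarith)
    have hTl : 0 < T * Real.log T := by positivity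
    simp only [FF_shift]
    have hsum := near_sum (n := m + 1) (fun i => tw (2 * ν + 3) (a + 2 * i))
      (fun i => (mm2 b (2 * ν + 3) (a + 2 * i) : ℝ))
      (fun i => (NN (LK (2 * a + 1 + 4 * i) (ch b (2 * a + 1))) T (2 * T) : ℝ))
      (fun i => (Ns (LK (2 * a + 1 + 4 * i) (ch b (2 * a + 1))) T (2 * T) : ℝ))
      (e := e) (B := C * (T * Real.log T)) (δ := 7 ^ (ν + 1))
      (X := tw (2 * ν + 3) 0 * (T * Real.log T / 256)) he0.le (by positivity) (by positivity)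
      (fun i _ => mm2_near b ν (a + 2 * i))
      (fun i hi => ⟨Nat.cast_nonneg _, k3 i (by have := Finset.mem_range.mp hi; omega)⟩)
      (fun i _ => ⟨Nat.cast_nonneg _, by
        have hf : (zset (LK (2 * a + 1 + 4 * i) (ch b (2 * a + 1))) T (2 * T)).Finite := by
          rw [← FF_shift]
          exact FF_fin b _ T (2 * T) hT1''
        exact_mod_cast Ns_le_NN _ T (2 * T) hf⟩) k1 k2 ?_ ?_
    · obtain ⟨r1, r2⟩ := hsum
      refine ⟨r1, lt_of_lt_of_le ?_ r2⟩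
      positivity
    · -- `(m+1) 7^(ν+1) C T log T ≤ e W0 T log T / 256`
      have g1 : (512 * C / e) * (((m + 1 : ℕ) : ℝ) * (7 : ℝ) ^ (ν + 1)) ≤ tw (2 * ν + 3) 0 := by
        refine le_trans ?_ hgain
        refine mul_le_mul_of_nonneg_right ?_ (by positivity)
        have : 0 ≤ 512 * C := by positivity
        linarith
      have g2 : e * ((512 * C / e) * (((m + 1 : ℕ) : ℝ) * (7 : ℝ) ^ (ν + 1))) ≤
          e * tw (2 * ν + 3) 0 := mul_le_mul_of_nonneg_left g1 he0.le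
      have g3 : e * ((512 * C / e) * (((m + 1 : ℕ) : ℝ) * (7 : ℝ) ^ (ν + 1))) =
          512 * C * (((m + 1 : ℕ) : ℝ) * (7 : ℝ) ^ (ν + 1)) := by
        field_simp
      rw [g3] at g2
      have g4 : 0 ≤ C * (((m + 1 : ℕ) : ℝ) * (7 : ℝ) ^ (ν + 1)) := by positivity
      have g5 : C * (((m + 1 : ℕ) : ℝ) * (7 : ℝ) ^ (ν + 1)) ≤ e * tw (2 * ν + 3) 0 / 256 := by
        linarith
      calc ((m + 1 : ℕ) : ℝ) * (7 ^ (ν + 1) * (C * (T * Real.log T))) =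
          (C * (((m + 1 : ℕ) : ℝ) * (7 : ℝ) ^ (ν + 1))) * (T * Real.log T) := by ring
        _ ≤ (e * tw (2 * ν + 3) 0 / 256) * (T * Real.log T) :=
            mul_le_mul_of_nonneg_right g5 hTl.le
        _ = e * (tw (2 * ν + 3) 0 * (T * Real.log T / 256)) := by ring
    · have g1 : (512 * C) * (((m + 1 : ℕ) : ℝ) * (7 : ℝ) ^ (ν + 1)) ≤ tw (2 * ν + 3) 0 := by
        refine le_trans ?_ hgain
        refine mul_le_mul_of_nonneg_right ?_ (by positivity)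
        have : 0 ≤ 512 * C / e := by positivity
        linarith
      calc 2 * (((m + 1 : ℕ) : ℝ) * (7 ^ (ν + 1) * (C * (T * Real.log T)))) =
          ((512 * C) * (((m + 1 : ℕ) : ℝ) * (7 : ℝ) ^ (ν + 1))) * (T * Real.log T / 256) := by ring
        _ ≤ tw (2 * ν + 3) 0 * (T * Real.log T / 256) :=
            mul_le_mul_of_nonneg_right g1 (by positivity)
  have hz : ∀ j, m < j → mm2 b (2 * ν + 3) j = 0 := by
    intro j hj
    obtain ⟨z0, z1⟩ := m_zero_of_lt (2 * ν + 3) j (by omega)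
    cases b
    · exact z0
    · exact z1
  rw [sum_cut (fun l => (mm2 b (2 * ν + 3) l : ℝ) * (NN (FF b l) T (2 * T) : ℝ)) m ν hmν
      (fun j hj => by simp only [hz j hj]; simp),
    sum_cut (fun l => (mm2 b (2 * ν + 3) l : ℝ) * (Ns (FF b l) T (2 * T) : ℝ)) m ν hmν
      (fun j hj => by simp only [hz j hj]; simp)]
  obtain ⟨a1, a2⟩ := key 0 (by norm_num)
  obtain ⟨b1, b2⟩ := key 1 le_rfl
  constructor
  · rw [mul_add]
    exact add_le_add a1 b1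
  · exact add_pos a2 b2

/-- the product over both families -/
theorem LF_eq (ν : ℕ) : LF ν = fun s => ∏ x ∈ Finset.range (ν + 1) ×ˢ (Finset.univ : Finset Bool),
    FF x.2 x.1 s ^ mm2 x.2 (2 * ν + 3) x.1 := by
  funext s
  unfold LF
  rw [Finset.prod_product]
  refine Finset.prod_congr rfl fun j _ => ?_
  rw [Fintype.prod_bool, mul_comm]
  rfl

theorem LF_diff (ν : ℕ) : Differentiable ℂ (LF ν) := by
  rw [LF_eq]
  refine Differentiable.fun_finsetProd fun x _ => ?_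
  exact (FF_diff x.2 x.1).pow _

theorem LF_NN (ν : ℕ) (T : ℝ) (hT : 1 ≤ T) : cnt (LF ν) (strip T (2 * T)) =
    ∑ x ∈ Finset.range (ν + 1) ×ˢ (Finset.univ : Finset Bool),
      mm2 x.2 (2 * ν + 3) x.1 * NN (FF x.2 x.1) T (2 * T) := by
  rw [LF_eq, cnt_prod (Finset.range (ν + 1) ×ˢ (Finset.univ : Finset Bool)) (fun x => FF x.2 x.1)
    (fun x => mm2 x.2 (2 * ν + 3) x.1)
    (fun x _ s _ => (FF_diff x.2 x.1).analyticAt s) (fun x _ s _ => FF_order x.2 x.1 s)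
    (fun x _ => by rw [← zset_eq]; exact FF_fin x.2 x.1 T (2 * T) hT)]
  exact Finset.sum_congr rfl fun l _ => by rw [NN_eq]

theorem LF_Ns (ν : ℕ) (T : ℝ) (hT : 1 ≤ T) :
    ∑ x ∈ Finset.range (ν + 1) ×ˢ (Finset.univ : Finset Bool),
      mm2 x.2 (2 * ν + 3) x.1 * Ns (FF x.2 x.1) T (2 * T) ≤ cnt (LF ν) (line T (2 * T)) := by
  have hsub : ∀ x : ℕ × Bool, {s : ℂ | s ∈ line T (2 * T) ∧ FF x.2 x.1 s = 0} ⊆
      zset (FF x.2 x.1) T (2 * T) := by
    rintro x s ⟨⟨h1, h2, h3⟩, h4⟩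
    exact ⟨by rw [h1]; norm_num, by rw [h1]; norm_num, h2, h3, h4⟩
  rw [LF_eq, cnt_prod (Finset.range (ν + 1) ×ˢ (Finset.univ : Finset Bool)) (fun x => FF x.2 x.1)
    (fun x => mm2 x.2 (2 * ν + 3) x.1)
    (fun x _ s _ => (FF_diff x.2 x.1).analyticAt s) (fun x _ s _ => FF_order x.2 x.1 s)
    (fun x _ => (FF_fin x.2 x.1 T (2 * T) hT).subset (hsub x))]
  exact Finset.sum_le_sum fun x _ => Nat.mul_le_mul_left _ (Ns_le _ _ _ (FF_fin x.2 x.1 T (2 * T) hT))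

theorem LF_fin (ν : ℕ) (T : ℝ) (hT : 1 ≤ T) :
    {s : ℂ | s ∈ strip T (2 * T) ∧ LF ν s = 0}.Finite := by
  rw [LF_eq]
  refine zeros_prod_finite (Finset.range (ν + 1) ×ˢ (Finset.univ : Finset Bool))
    (fun x => FF x.2 x.1) (fun x => mm2 x.2 (2 * ν + 3) x.1) fun x _ => ?_
  rw [← zset_eq]
  exact FF_fin x.2 x.1 T (2 * T) hT

end Pool.Agent.Zk20.FQ
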