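import Mathlib

/-!
Trinomial coefficients: the expansion of `(1 + γ (z + 1/z))^N` (helper20).
-/

set_option autoImplicit false

open Finset

namespace Pool.Agent.Zk20.FQ

section tau
variable {R : Type*} [CommRing R]

/-- the coefficient of `z^k` in `(1 + γ (z + 1/z))^N` -/
def tau (γ : R) : ℕ → ℤ → R
  | 0, k => if k = 0 then 1 else 0
  | N + 1, k => tau γ N k + γ * (tau γ N (k - 1) + tau γ N (k + 1))

theorem tau_zero (γ : R) (k : ℤ) : tau γ 0 k = if k = 0 then 1 else 0 := rfl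

theorem tau_succ (γ : R) (N : ℕ) (k : ℤ) :
    tau γ (N + 1) k = tau γ N k + γ * (tau γ N (k - 1) + tau γ N (k + 1)) := rfl

theorem tau_support (γ : R) : ∀ (N : ℕ) (k : ℤ), (N : ℤ) < |k| → tau γ N k = 0
  | 0, k, h => by
    rw [tau_zero, if_neg]
    rintro rfl
    simp at h
  | N + 1, k, h => by
    rw [tau_succ, tau_support γ N k (by push_cast at h; omega),
      tau_support γ N (k - 1) (by
        push_cast at h
        rcases abs_cases k with ⟨h1, h2⟩ | ⟨h1, h2⟩ <;> rcases abs_cases (k - 1) with ⟨h3, h4⟩ | ⟨h3, h4⟩ <;>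
          omega),
      tau_support γ N (k + 1) (by
        push_cast at h
        rcases abs_cases k with ⟨h1, h2⟩ | ⟨h1, h2⟩ <;> rcases abs_cases (k + 1) with ⟨h3, h4⟩ | ⟨h3, h4⟩ <;>
          omega)]
    ring

theorem tau_neg (γ : R) : ∀ (N : ℕ) (k : ℤ), tau γ N (-k) = tau γ N k
  | 0, k => by
    rw [tau_zero, tau_zero]
    simp
  | N + 1, k => by
    rw [tau_succ, tau_succ, tau_neg γ N k, show -k - 1 = -(k + 1) by ring,
      show -k + 1 = -(k - 1) by ring, tau_neg γ N (k + 1), tau_neg γ N (k - 1)]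
    ring

/-- the three term relation -/
theorem tau_one_rec : ∀ (N : ℕ) (k : ℤ),
    ((N : ℤ) + k + 1) * tau (1 : ℤ) N (k + 1) + k * tau (1 : ℤ) N k -
      ((N : ℤ) - k + 1) * tau (1 : ℤ) N (k - 1) = 0
  | 0, k => by
    rw [tau_zero, tau_zero, tau_zero]
    rcases eq_or_ne k 0 with rfl | h0
    · norm_num
    · rcases eq_or_ne k 1 with rfl | h1
      · norm_num
      · rcases eq_or_ne k (-1) with rfl | h2
        · norm_num
        · rw [if_neg (by omega), if_neg h0, if_neg (by omega)]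
          ring
  | N + 1, k => by
    have e1 := tau_one_rec N k
    have e2 := tau_one_rec N (k + 1)
    have e3 := tau_one_rec N (k - 1)
    rw [tau_succ, tau_succ, tau_succ]
    have f1 : k + 1 - 1 = k := by ring
    have f2 : k - 1 + 1 = k := by ring
    rw [f1] at e2 ⊢
    rw [f2] at e3 ⊢
    push_cast
    linear_combination e1 + e2 + e3

end tau

theorem tau_hasSum {γ y : ℂ} (hy : y ≠ 0) (N : ℕ) :
    HasSum (fun k : ℤ => tau γ N k * y ^ k) ((1 + γ * (y + y⁻¹)) ^ N) := by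
  induction N with
  | zero =>
    rw [pow_zero]
    have h := hasSum_ite_eq (0 : ℤ) (1 : ℂ)
    have e : (fun k : ℤ => tau γ 0 k * y ^ k) = fun k : ℤ => if k = 0 then (1 : ℂ) else 0 := by
      funext k
      rw [tau_zero]
      split_ifs with h0
      · rw [h0]; simp
      · simp
    rw [e]
    exact h
  | succ N ih =>
    obtain ⟨f, hf⟩ : ∃ f : ℤ → ℂ, f = fun k : ℤ => tau γ N k * y ^ k := ⟨_, rfl⟩
    have ih' : HasSum f ((1 + γ * (y + y⁻¹)) ^ N) := by rw [hf]; exact ih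
    have h1 : HasSum (fun k : ℤ => f (k - 1)) ((1 + γ * (y + y⁻¹)) ^ N) :=
      (Equiv.hasSum_iff (f := f) (Equiv.subRight (1 : ℤ))).mpr ih'
    have h2 : HasSum (fun k : ℤ => f (k + 1)) ((1 + γ * (y + y⁻¹)) ^ N) :=
      (Equiv.hasSum_iff (f := f) (Equiv.addRight (1 : ℤ))).mpr ih'
    have h3 := ih'.add ((h1.mul_left (γ * y)).add (h2.mul_left (γ * y⁻¹)))
    have e : (1 + γ * (y + y⁻¹)) ^ (N + 1) = (1 + γ * (y + y⁻¹)) ^ N +
        (γ * y * (1 + γ * (y + y⁻¹)) ^ N + γ * y⁻¹ * (1 + γ * (y + y⁻¹)) ^ N) := by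
      rw [pow_succ]
      ring
    have e2 : (fun k : ℤ => tau γ (N + 1) k * y ^ k) = fun k : ℤ => f k +
        (γ * y * f (k - 1) + γ * y⁻¹ * f (k + 1)) := by
      funext k
      simp only [hf]
      rw [tau_succ, zpow_sub_one₀ hy, zpow_add_one₀ hy]
      have e3 : γ * y * (tau γ N (k - 1) * (y ^ k * y⁻¹)) =
          γ * tau γ N (k - 1) * y ^ k * (y * y⁻¹) := by ring
      have e4 : γ * y⁻¹ * (tau γ N (k + 1) * (y ^ k * y)) =
          γ * tau γ N (k + 1) * y ^ k * (y * y⁻¹) := by ring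
      rw [e3, e4, mul_inv_cancel₀ hy]
      ring
    rw [e, e2]
    exact h3

/-! ### Real coefficients -/

theorem tau_cast (N : ℕ) : ∀ k : ℤ, tau (1 : ℝ) N k = ((tau (1 : ℤ) N k : ℤ) : ℝ) := by
  induction N with
  | zero =>
    intro k
    rw [tau_zero, tau_zero]
    push_cast
    rfl
  | succ N ih =>
    intro k
    rw [tau_succ, tau_succ, ih, ih, ih]
    push_cast
    ring

theorem tau_nonneg : ∀ (N : ℕ) (k : ℤ), 0 ≤ tau (1 : ℝ) N k
  | 0, k => by
    rw [tau_zero]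
    split_ifs <;> norm_num
  | N + 1, k => by
    rw [tau_succ, one_mul]
    have := tau_nonneg N k
    have := tau_nonneg N (k - 1)
    have := tau_nonneg N (k + 1)
    linarith

/-- unimodality -/
theorem tau_mono : ∀ (N : ℕ) (k : ℤ), 1 ≤ k → tau (1 : ℝ) N k ≤ tau (1 : ℝ) N (k - 1)
  | 0, k, hk => by
    rw [tau_zero, tau_zero, if_neg (by omega)]
    split_ifs <;> norm_num
  | N + 1, k, hk => by
    rw [tau_succ, tau_succ, one_mul, one_mul]
    have f2 : k - 1 + 1 = k := by ring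
    rw [f2]
    have key : tau (1 : ℝ) N (k + 1) ≤ tau (1 : ℝ) N (k - 1 - 1) := by
      have h1 := tau_mono N (k + 1) (by omega)
      have h2 := tau_mono N k hk
      have f1 : k + 1 - 1 = k := by ring
      rw [f1] at h1
      rcases eq_or_lt_of_le hk with h | h
      · subst h
        have : tau (1 : ℝ) N (1 - 1 - 1) = tau (1 : ℝ) N 1 := by
          rw [← tau_neg]
          norm_num
        rw [this]
        exact h1
      · have h3 := tau_mono N (k - 1) (by omega)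
        linarith
    linarith

theorem tau_rec (N : ℕ) (k : ℤ) :
    ((N : ℝ) + k + 1) * tau (1 : ℝ) N (k + 1) + k * tau (1 : ℝ) N k =
      ((N : ℝ) - k + 1) * tau (1 : ℝ) N (k - 1) := by
  have h := tau_one_rec N k
  rw [tau_cast, tau_cast, tau_cast]
  have h2 : (((((N : ℤ) + k + 1) * tau (1 : ℤ) N (k + 1) + k * tau (1 : ℤ) N k -
      ((N : ℤ) - k + 1) * tau (1 : ℤ) N (k - 1) : ℤ)) : ℝ) = 0 := by
    rw [h]; simp
  push_cast at h2
  linarith

/-- upper bound for a step of two -/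
theorem tau_up (N : ℕ) (k : ℕ) (hk : k ≤ N) :
    tau (1 : ℝ) N ((k : ℤ) + 2) ≤ Real.exp (-((k : ℝ) + 1) / (N + 1)) * tau (1 : ℝ) N k := by
  have h := tau_rec N ((k : ℤ) + 1)
  have f1 : (k : ℤ) + 1 + 1 = (k : ℤ) + 2 := by ring
  have f2 : (k : ℤ) + 1 - 1 = (k : ℤ) := by ring
  rw [f1, f2] at h
  push_cast at h
  have h0 := tau_nonneg N ((k : ℤ) + 1)
  have h1 := tau_nonneg N (k : ℤ)
  have hkN : (k : ℝ) ≤ N := by exact_mod_cast hk
  have hk0 : (0 : ℝ) ≤ k := Nat.cast_nonneg k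
  have hN : (0 : ℝ) < N + 1 := by linarith
  have h2 : tau (1 : ℝ) N ((k : ℤ) + 2) ≤ ((N : ℝ) - k) / (N + k + 2) * tau (1 : ℝ) N k := by
    rw [div_mul_eq_mul_div, le_div_iff₀ (by linarith)]
    nlinarith
  have h3 : ((N : ℝ) - k) / (N + k + 2) ≤ Real.exp (-((k : ℝ) + 1) / (N + 1)) := by
    have h4 := Real.add_one_le_exp (-((k : ℝ) + 1) / (N + 1))
    refine le_trans ?_ h4
    rw [div_le_iff₀ (by linarith)]
    have h5 : (-((k : ℝ) + 1) / (N + 1) + 1) * (N + k + 2) =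
        (N - k) * (N + k + 2) / (N + 1) := by
      field_simp
      ring
    rw [h5, le_div_iff₀ hN]
    nlinarith [mul_nonneg (sub_nonneg.2 hkN) hk0, sub_nonneg.2 hkN]
  exact h2.trans (mul_le_mul_of_nonneg_right h3 h1)

/-- lower bound for a step of two -/
theorem tau_low (N : ℕ) (k : ℕ) :
    (1 - 3 * ((k : ℝ) + 1) / (N + 1)) * tau (1 : ℝ) N k ≤ tau (1 : ℝ) N ((k : ℤ) + 2) := by
  have h := tau_rec N ((k : ℤ) + 1)
  have f1 : (k : ℤ) + 1 + 1 = (k : ℤ) + 2 := by ring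
  have f2 : (k : ℤ) + 1 - 1 = (k : ℤ) := by ring
  rw [f1, f2] at h
  push_cast at h
  have h0 := tau_mono N ((k : ℤ) + 1) (by omega)
  rw [f2] at h0
  have h1 := tau_nonneg N (k : ℤ)
  have hk0 : (0 : ℝ) ≤ k := Nat.cast_nonneg k
  have hN0 : (0 : ℝ) ≤ N := Nat.cast_nonneg N
  have hN : (0 : ℝ) < N + 1 := by linarith
  have h2 : ((N : ℝ) - 2 * k - 1) * tau (1 : ℝ) N k ≤ (N + k + 2) * tau (1 : ℝ) N ((k : ℤ) + 2) := by
    nlinarith
  have h3 : (1 - 3 * ((k : ℝ) + 1) / (N + 1)) * (N + k + 2) ≤ (N : ℝ) - 2 * k - 1 := by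
    have h5 : (1 - 3 * ((k : ℝ) + 1) / (N + 1)) * (N + k + 2) =
        (N + k + 2) - 3 * (k + 1) * ((N + k + 2) / (N + 1)) := by
      field_simp
    have h6 : (1 : ℝ) ≤ (N + k + 2) / (N + 1) := by
      rw [le_div_iff₀ hN]
      linarith
    rw [h5]
    nlinarith
  have h4 : (0 : ℝ) < N + k + 2 := by linarith
  have h7 : (N + k + 2) * ((1 - 3 * ((k : ℝ) + 1) / (N + 1)) * tau (1 : ℝ) N k) ≤
      (N + k + 2) * tau (1 : ℝ) N ((k : ℤ) + 2) := by
    calc (N + k + 2) * ((1 - 3 * ((k : ℝ) + 1) / (N + 1)) * tau (1 : ℝ) N k) =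
        ((1 - 3 * ((k : ℝ) + 1) / (N + 1)) * (N + k + 2)) * tau (1 : ℝ) N k := by ring
      _ ≤ ((N : ℝ) - 2 * k - 1) * tau (1 : ℝ) N k := mul_le_mul_of_nonneg_right h3 h1
      _ ≤ _ := h2
  exact le_of_mul_le_mul_left h7 h4

end Pool.Agent.Zk20.FQ
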