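import Pool.Agent.Zk20.FQ.Tri
import Pool.Agent.W354.FK.Binom

/-!
The weights of the cohomology of the Fermat quartics (helper20).
-/

set_option autoImplicit false

open Finset

namespace Pool.Agent.Zk20.FQ

/-- the number of sequences of `N` steps `1, 0, -1` with sum `k`, for which the number of the
steps different from `0` is `s` modulo `4` -/
def cc : ℕ → ℤ → ZMod 4 → ℕ
  | 0, k, s => if k = 0 ∧ s = 0 then 1 else 0
  | N + 1, k, s => cc N k s + cc N (k - 1) (s - 1) + cc N (k + 1) (s - 1)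

theorem cc_zero (k : ℤ) (s : ZMod 4) : cc 0 k s = if k = 0 ∧ s = 0 then 1 else 0 := rfl

theorem cc_succ (N : ℕ) (k : ℤ) (s : ZMod 4) :
    cc (N + 1) k s = cc N k s + cc N (k - 1) (s - 1) + cc N (k + 1) (s - 1) := rfl

theorem tau_cc {R : Type*} [CommRing R] (γ : R) (hγ : γ ^ 4 = 1) : ∀ (N : ℕ) (k : ℤ),
    tau γ N k = (cc N k 0 : R) + γ * cc N k 1 + γ ^ 2 * cc N k 2 + γ ^ 3 * cc N k 3
  | 0, k => by
    rw [tau_zero, cc_zero, cc_zero, cc_zero, cc_zero]
    have h1 : ¬ (k = 0 ∧ (1 : ZMod 4) = 0) := fun h => by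
      have := h.2
      revert this
      decide
    have h2 : ¬ (k = 0 ∧ (2 : ZMod 4) = 0) := fun h => by
      have := h.2
      revert this
      decide
    have h3 : ¬ (k = 0 ∧ (3 : ZMod 4) = 0) := fun h => by
      have := h.2
      revert this
      decide
    rw [if_neg h1, if_neg h2, if_neg h3]
    by_cases h0 : k = 0
    · rw [if_pos h0, if_pos ⟨h0, rfl⟩]
      simp
    · rw [if_neg h0, if_neg (fun h => h0 h.1)]
      simp
  | N + 1, k => by
    have s0 : (0 : ZMod 4) - 1 = 3 := by decide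
    have s1 : (1 : ZMod 4) - 1 = 0 := by decide
    have s2 : (2 : ZMod 4) - 1 = 1 := by decide
    have s3 : (3 : ZMod 4) - 1 = 2 := by decide
    rw [tau_succ, tau_cc γ hγ N k, tau_cc γ hγ N (k - 1), tau_cc γ hγ N (k + 1), cc_succ, cc_succ,
      cc_succ, cc_succ, s0, s1, s2, s3]
    push_cast
    linear_combination ((cc N (k - 1) 3 : R) + (cc N (k + 1) 3 : R)) * hγ

theorem cc_parity : ∀ (N : ℕ) (k : ℤ), (Even k → cc N k 1 = 0 ∧ cc N k 3 = 0) ∧
    (Odd k → cc N k 0 = 0 ∧ cc N k 2 = 0)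
  | 0, k => by
    refine ⟨fun _ => ⟨?_, ?_⟩, fun h => ⟨?_, ?_⟩⟩
    · rw [cc_zero, if_neg]
      exact fun h => by
        have := h.2
        revert this
        decide
    · rw [cc_zero, if_neg]
      exact fun h => by
        have := h.2
        revert this
        decide
    · rw [cc_zero, if_neg]
      rintro ⟨rfl, -⟩
      simp at h
    · rw [cc_zero, if_neg]
      exact fun h => by
        have := h.2
        revert this
        decide
  | N + 1, k => by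
    have s0 : (0 : ZMod 4) - 1 = 3 := by decide
    have s1 : (1 : ZMod 4) - 1 = 0 := by decide
    have s2 : (2 : ZMod 4) - 1 = 1 := by decide
    have s3 : (3 : ZMod 4) - 1 = 2 := by decide
    have i0 := cc_parity N k
    have i1 := cc_parity N (k - 1)
    have i2 := cc_parity N (k + 1)
    rw [cc_succ, cc_succ, cc_succ, cc_succ, s0, s1, s2, s3]
    refine ⟨fun h => ?_, fun h => ?_⟩
    · have h1 : Odd (k - 1) := h.sub_odd odd_one
      have h2 : Odd (k + 1) := h.add_odd odd_one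
      have a := i0.1 h
      have b := i1.2 h1
      have c := i2.2 h2
      rw [a.1, a.2, b.1, b.2, c.1, c.2]
      exact ⟨rfl, rfl⟩
    · have h1 : Even (k - 1) := h.sub_odd odd_one
      have h2 : Even (k + 1) := h.add_odd odd_one
      have a := i0.2 h
      have b := i1.1 h1
      have c := i2.1 h2
      rw [a.1, a.2, b.1, b.2, c.1, c.2]
      exact ⟨rfl, rfl⟩

/-- the two multiplicities for the infinity type `2 l + 1` -/
def m0 (N l : ℕ) : ℕ := cc N (4 * (l : ℤ) + 2) 0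
/-- the second one -/
def m1 (N l : ℕ) : ℕ := cc N (4 * (l : ℤ) + 2) 2

theorem even42 (l : ℕ) : Even (4 * (l : ℤ) + 2) := ⟨2 * l + 1, by ring⟩

theorem tau_even {γ : ℂ} (hγ : γ ^ 4 = 1) (N l : ℕ) :
    tau γ N (4 * (l : ℤ) + 2) = m0 N l + γ ^ 2 * m1 N l := by
  obtain ⟨h1, h3⟩ := (cc_parity N (4 * (l : ℤ) + 2)).1 (even42 l)
  rw [tau_cc γ hγ, h1, h3]
  unfold m0 m1
  push_cast
  ring

/-- the weight -/
noncomputable def tw (N l : ℕ) : ℝ := tau (1 : ℝ) N (4 * (l : ℤ) + 2)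

theorem tw_eq (N l : ℕ) : tw N l = m0 N l + m1 N l := by
  obtain ⟨h1, h3⟩ := (cc_parity N (4 * (l : ℤ) + 2)).1 (even42 l)
  unfold tw
  rw [tau_cc (1 : ℝ) (by norm_num), h1, h3]
  unfold m0 m1
  push_cast
  ring

theorem tw_zero_of_lt (N l : ℕ) (h : N < 4 * l + 2) : tw N l = 0 := by
  unfold tw
  apply tau_support
  rw [abs_of_nonneg (by positivity)]
  exact_mod_cast h

theorem m_zero_of_lt (N l : ℕ) (h : N < 4 * l + 2) : m0 N l = 0 ∧ m1 N l = 0 := by
  have h1 := tw_zero_of_lt N l h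
  rw [tw_eq] at h1
  have h2 : (0 : ℝ) ≤ m0 N l := Nat.cast_nonneg _
  have h3 : (0 : ℝ) ≤ m1 N l := Nat.cast_nonneg _
  constructor
  · have : (m0 N l : ℝ) = 0 := by linarith
    exact_mod_cast this
  · have : (m1 N l : ℝ) = 0 := by linarith
    exact_mod_cast this

theorem tau_up' (N k : ℕ) :
    tau (1 : ℝ) N ((k : ℤ) + 2) ≤ Real.exp (-((k : ℝ) + 1) / (N + 1)) * tau (1 : ℝ) N k := by
  by_cases hk : k ≤ N
  · exact tau_up N k hk
  · have h : tau (1 : ℝ) N ((k : ℤ) + 2) = 0 := by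
      apply tau_support
      rw [abs_of_nonneg (by positivity)]
      push Not at hk
      have : (N : ℤ) < k := by exact_mod_cast hk
      omega
    rw [h]
    exact mul_nonneg (Real.exp_pos _).le (tau_nonneg _ _)

theorem tw_up (N : ℕ) : ∀ l : ℕ,
    tw N l ≤ Real.exp (-(4 * (l : ℝ) ^ 2 + 4 * l) / (N + 1)) * tw N 0
  | 0 => by simp
  | l + 1 => by
    have ih := tw_up N l
    have h1 := tau_up' N (4 * l + 2)
    have h2 := tau_up' N (4 * l + 4)
    have e1 : ((4 * l + 2 : ℕ) : ℤ) + 2 = 4 * (l : ℤ) + 4 := by push_cast; ring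
    have e2 : ((4 * l + 2 : ℕ) : ℤ) = 4 * (l : ℤ) + 2 := by push_cast; ring
    have e3 : ((4 * l + 4 : ℕ) : ℤ) + 2 = 4 * ((l + 1 : ℕ) : ℤ) + 2 := by push_cast; ring
    have e4 : ((4 * l + 4 : ℕ) : ℤ) = 4 * (l : ℤ) + 4 := by push_cast; ring
    rw [e1, e2] at h1
    rw [e3, e4] at h2
    have hN : (0 : ℝ) < N + 1 := by positivity
    have h3 : tw N (l + 1) ≤ Real.exp (-(((4 * l + 4 : ℕ) : ℝ) + 1) / (N + 1)) *
        (Real.exp (-(((4 * l + 2 : ℕ) : ℝ) + 1) / (N + 1)) *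
        (Real.exp (-(4 * (l : ℝ) ^ 2 + 4 * l) / (N + 1)) * tw N 0)) := by
      refine h2.trans (mul_le_mul_of_nonneg_left ?_ (Real.exp_pos _).le)
      refine h1.trans (mul_le_mul_of_nonneg_left ?_ (Real.exp_pos _).le)
      exact ih
    refine h3.trans (le_of_eq ?_)
    rw [← mul_assoc, ← mul_assoc, ← Real.exp_add, ← Real.exp_add]
    congr 2
    push_cast
    field_simp
    ring

theorem tw_nonneg (N l : ℕ) : 0 ≤ tw N l := tau_nonneg _ _

theorem low_aux {x y w a b : ℝ} (hx : 0 ≤ x) (hw : 0 ≤ w) (ha : 0 ≤ a) (hb : 0 ≤ b)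
    (h1 : (1 - a) * y ≤ x) (h2 : (1 - b) * w ≤ y) : (1 - (a + b)) * w ≤ x := by
  by_cases h : a ≤ 1
  · have h3 : (1 - a) * ((1 - b) * w) ≤ x := (mul_le_mul_of_nonneg_left h2 (by linarith)).trans h1
    have h4 : 0 ≤ a * b * w := by positivity
    nlinarith
  · push Not at h
    have h5 : (1 - (a + b)) * w ≤ 0 := mul_nonpos_of_nonpos_of_nonneg (by linarith) hw
    linarith

theorem tw_low (N : ℕ) : ∀ l : ℕ,
    (1 - 12 * ((l : ℝ) ^ 2 + l) / (N + 1)) * tw N 0 ≤ tw N l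
  | 0 => by simp
  | l + 1 => by
    have ih := tw_low N l
    have h1 := tau_low N (4 * l + 2)
    have h2 := tau_low N (4 * l + 4)
    have e1 : ((4 * l + 2 : ℕ) : ℤ) + 2 = 4 * (l : ℤ) + 4 := by push_cast; ring
    have e2 : ((4 * l + 2 : ℕ) : ℤ) = 4 * (l : ℤ) + 2 := by push_cast; ring
    have e3 : ((4 * l + 4 : ℕ) : ℤ) + 2 = 4 * ((l + 1 : ℕ) : ℤ) + 2 := by push_cast; ring
    have e4 : ((4 * l + 4 : ℕ) : ℤ) = 4 * (l : ℤ) + 4 := by push_cast; ring
    rw [e1, e2] at h1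
    rw [e3, e4] at h2
    have hN : (0 : ℝ) < N + 1 := by positivity
    have h3 := low_aux (tau_nonneg N (4 * (l : ℤ) + 4)) (tw_nonneg N 0)
      (a := 3 * (((4 * l + 2 : ℕ) : ℝ) + 1) / (N + 1)) (b := 12 * ((l : ℝ) ^ 2 + l) / (N + 1))
      (by positivity) (by positivity) h1 ih
    have h4 := low_aux (tw_nonneg N (l + 1)) (tw_nonneg N 0)
      (a := 3 * (((4 * l + 4 : ℕ) : ℝ) + 1) / (N + 1)) (by positivity) (by positivity) h2 h3
    refine le_trans (le_of_eq ?_) h4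
    congr 1
    push_cast
    field_simp
    ring

theorem tw_anti (N : ℕ) : Antitone (tw N) := by
  refine antitone_nat_of_succ_le fun l => ?_
  unfold tw
  have h1 := tau_mono N (4 * (l : ℤ) + 3) (by omega)
  have h2 := tau_mono N (4 * (l : ℤ) + 4) (by omega)
  have h3 := tau_mono N (4 * (l : ℤ) + 5) (by omega)
  have h4 := tau_mono N (4 * (l : ℤ) + 6) (by omega)
  have e1 : 4 * (l : ℤ) + 3 - 1 = 4 * (l : ℤ) + 2 := by ring
  have e2 : 4 * (l : ℤ) + 4 - 1 = 4 * (l : ℤ) + 3 := by ring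
  have e3 : 4 * (l : ℤ) + 5 - 1 = 4 * (l : ℤ) + 4 := by ring
  have e4 : 4 * (l : ℤ) + 6 - 1 = 4 * (l : ℤ) + 5 := by ring
  have e5 : 4 * ((l + 1 : ℕ) : ℤ) + 2 = 4 * (l : ℤ) + 6 := by push_cast; ring
  rw [e1] at h1
  rw [e2] at h2
  rw [e3] at h3
  rw [e4] at h4
  rw [e5]
  linarith

theorem tw_wt (N : ℕ) : Pool.Agent.W354.FK.Wt (N / 4) (tw N) where
  nn := tw_nonneg N
  anti := tw_anti N
  zero := fun l hl => tw_zero_of_lt N l (by omega)
  up := by
    intro l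
    refine (tw_up N l).trans (mul_le_mul_of_nonneg_right (Real.exp_le_exp.mpr ?_) (tw_nonneg N 0))
    have h1 : ((N : ℝ) + 1) ≤ 4 * (2 * ((N / 4 : ℕ) : ℝ) + 2) := by
      have : N + 1 ≤ 4 * (2 * (N / 4) + 2) := by omega
      exact_mod_cast this
    have hN : (0 : ℝ) < N + 1 := by positivity
    have hm : (0 : ℝ) < 2 * ((N / 4 : ℕ) : ℝ) + 2 := by positivity
    rw [neg_div, neg_div, neg_le_neg_iff, div_le_div_iff₀ hm hN]
    have hl : (0 : ℝ) ≤ (l : ℝ) := Nat.cast_nonneg l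
    have h2 : (0 : ℝ) ≤ (l : ℝ) ^ 2 := by positivity
    have h3 : (l : ℝ) ^ 2 * ((N : ℝ) + 1) ≤ (l : ℝ) ^ 2 * (4 * (2 * ((N / 4 : ℕ) : ℝ) + 2)) :=
      mul_le_mul_of_nonneg_left h1 h2
    have h4 : 0 ≤ 4 * (l : ℝ) * (2 * ((N / 4 : ℕ) : ℝ) + 2) := by positivity
    nlinarith
  low := by
    intro l hl
    refine le_trans ?_ (tw_low N l)
    have h1 : 64 * l ^ 2 ≤ N := by omega
    have h1' : 64 * (l : ℝ) ^ 2 ≤ N := by exact_mod_cast h1
    have h2 : (l : ℝ) ≤ (l : ℝ) ^ 2 := by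
      rcases Nat.eq_zero_or_pos l with rfl | h
      · simp
      · have : l ≤ l ^ 2 := by nlinarith
        exact_mod_cast this
    have hN : (0 : ℝ) < N + 1 := by positivity
    have h3 : 1 / 4 ≤ 1 - 12 * ((l : ℝ) ^ 2 + l) / (N + 1) := by
      have : 12 * ((l : ℝ) ^ 2 + l) / (N + 1) ≤ 3 / 4 := by
        rw [div_le_iff₀ hN]
        linarith
      linarith
    have h4 := mul_le_mul_of_nonneg_right h3 (tw_nonneg N 0)
    linarith

/-! ### The difference of the multiplicities -/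

theorem tau_I_two (N : ℕ) (k : ℤ) : tau Complex.I (N + 2) k = -tau Complex.I N k +
    2 * Complex.I * (tau Complex.I N (k - 1) + tau Complex.I N (k + 1)) -
    (tau Complex.I N (k - 2) + tau Complex.I N (k + 2)) := by
  rw [show N + 2 = (N + 1) + 1 by ring, tau_succ, tau_succ, tau_succ, tau_succ]
  have e1 : k - 1 - 1 = k - 2 := by ring
  have e2 : k - 1 + 1 = k := by ring
  have e3 : k + 1 - 1 = k := by ring
  have e4 : k + 1 + 1 = k + 2 := by ring
  rw [e1, e2, e3, e4]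
  linear_combination (tau Complex.I N (k - 2) + 2 * tau Complex.I N k + tau Complex.I N (k + 2)) *
    Complex.I_sq

theorem tau_I_bound : ∀ (ν : ℕ) (k : ℤ), ‖tau Complex.I (2 * ν + 1) k‖ ≤ (7 : ℝ) ^ ν
  | 0, k => by
    rw [show 2 * 0 + 1 = 0 + 1 by norm_num, tau_succ, tau_zero, tau_zero, tau_zero, pow_zero]
    rcases eq_or_ne k 0 with rfl | h0
    · norm_num
    · rcases eq_or_ne k 1 with rfl | h1
      · norm_num
      · rcases eq_or_ne k (-1) with rfl | h2
        · norm_num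
        · rw [if_neg h0, if_neg (by omega), if_neg (by omega)]
          norm_num
  | ν + 1, k => by
    have e : 2 * (ν + 1) + 1 = (2 * ν + 1) + 2 := by ring
    rw [e, tau_I_two]
    have b0 := tau_I_bound ν k
    have b1 := tau_I_bound ν (k - 1)
    have b2 := tau_I_bound ν (k + 1)
    have b3 := tau_I_bound ν (k - 2)
    have b4 := tau_I_bound ν (k + 2)
    have hI : ‖2 * Complex.I * (tau Complex.I (2 * ν + 1) (k - 1) +
        tau Complex.I (2 * ν + 1) (k + 1))‖ ≤ 4 * 7 ^ ν := by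
      rw [norm_mul, norm_mul, Complex.norm_I, Complex.norm_ofNat]
      have := norm_add_le (tau Complex.I (2 * ν + 1) (k - 1)) (tau Complex.I (2 * ν + 1) (k + 1))
      linarith
    have h2 := norm_add_le (tau Complex.I (2 * ν + 1) (k - 2)) (tau Complex.I (2 * ν + 1) (k + 2))
    have h3 := norm_sub_le (-tau Complex.I (2 * ν + 1) k +
      2 * Complex.I * (tau Complex.I (2 * ν + 1) (k - 1) + tau Complex.I (2 * ν + 1) (k + 1)))
      (tau Complex.I (2 * ν + 1) (k - 2) + tau Complex.I (2 * ν + 1) (k + 2))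
    have h4 := norm_add_le (-tau Complex.I (2 * ν + 1) k)
      (2 * Complex.I * (tau Complex.I (2 * ν + 1) (k - 1) + tau Complex.I (2 * ν + 1) (k + 1)))
    rw [norm_neg] at h4
    rw [pow_succ]
    linarith

theorem m_diff (ν l : ℕ) : |(m0 (2 * ν + 1) l : ℝ) - m1 (2 * ν + 1) l| ≤ (7 : ℝ) ^ ν := by
  have h := tau_I_bound ν (4 * (l : ℤ) + 2)
  rw [tau_even (by rw [Complex.I_pow_four]) , Complex.I_sq] at h
  have e : (m0 (2 * ν + 1) l : ℂ) + -1 * (m1 (2 * ν + 1) l : ℂ) =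
      (((m0 (2 * ν + 1) l : ℝ) - m1 (2 * ν + 1) l : ℝ) : ℂ) := by
    push_cast
    ring
  rw [e, Complex.norm_real, Real.norm_eq_abs] at h
  exact h

/-! ### The size -/

theorem tau_cast' (N : ℕ) : ∀ k : ℤ, tau (1 : ℂ) N k = ((tau (1 : ℝ) N k : ℝ) : ℂ) := by
  induction N with
  | zero =>
    intro k
    rw [tau_zero, tau_zero]
    split_ifs <;> simp
  | succ N ih =>
    intro k
    rw [tau_succ, tau_succ, ih, ih, ih]
    push_cast
    ring

theorem tau_sum (N : ℕ) : ∑ k ∈ Finset.Icc (-(N : ℤ)) N, tau (1 : ℝ) N k = 3 ^ N := by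
  have h := tau_hasSum (γ := 1) (y := 1) one_ne_zero N
  simp only [one_zpow, mul_one] at h
  have h2 : HasSum (fun k : ℤ => tau (1 : ℂ) N k)
    (∑ k ∈ Finset.Icc (-(N : ℤ)) N, tau (1 : ℂ) N k) := hasSum_sum_of_ne_finset_zero (fun k hk => by
      apply tau_support
      rw [Finset.mem_Icc, not_and_or, not_le, not_le] at hk
      rcases hk with h | h
      · rw [abs_of_nonpos (by omega)]
        omega
      · rw [abs_of_nonneg (by omega)]
        exact h)
  have h3 := h2.unique h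
  have h4 : (((∑ k ∈ Finset.Icc (-(N : ℤ)) N, tau (1 : ℝ) N k : ℝ)) : ℂ) = ((3 ^ N : ℝ) : ℂ) := by
    rw [Complex.ofReal_sum]
    rw [Finset.sum_congr rfl (fun k _ => (tau_cast' N k).symm), h3]
    push_cast
    norm_num
  exact_mod_cast h4

theorem tau_le_zero (N : ℕ) (k : ℤ) : tau (1 : ℝ) N k ≤ tau (1 : ℝ) N 0 := by
  have h : ∀ j : ℕ, tau (1 : ℝ) N j ≤ tau (1 : ℝ) N 0 := by
    intro j
    induction j with
    | zero => simp
    | succ j ih =>
      have h1 := tau_mono N ((j + 1 : ℕ) : ℤ) (by push_cast; omega)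
      have e : ((j + 1 : ℕ) : ℤ) - 1 = j := by push_cast; ring
      rw [e] at h1
      linarith
  rcases Int.eq_nat_or_neg k with ⟨j, rfl | rfl⟩
  · exact h j
  · rw [tau_neg]
    exact h j

theorem tw_size (N : ℕ) (hN : 3 ≤ N) : (3 : ℝ) ^ N ≤ 4 * (2 * N + 1) * tw N 0 := by
  have h1 : (3 : ℝ) ^ N ≤ (2 * N + 1) * tau (1 : ℝ) N 0 := by
    rw [← tau_sum N]
    calc ∑ k ∈ Finset.Icc (-(N : ℤ)) N, tau (1 : ℝ) N k ≤
        ∑ _k ∈ Finset.Icc (-(N : ℤ)) N, tau (1 : ℝ) N 0 :=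
          Finset.sum_le_sum fun k _ => tau_le_zero N k
      _ = _ := by
        rw [Finset.sum_const, Int.card_Icc, nsmul_eq_mul]
        congr 1
        have : ((N : ℤ) + 1 - -(N : ℤ)).toNat = 2 * N + 1 := by omega
        rw [this]
        push_cast
        ring
  have h2 := tau_low N 0
  have e1 : ((0 : ℕ) : ℤ) + 2 = 2 := by norm_num
  have e2 : ((0 : ℕ) : ℤ) = 0 := by norm_num
  rw [e1, e2] at h2
  have hN3 : (3 : ℝ) ≤ N := by exact_mod_cast hN
  have h3 : (1 : ℝ) / 4 ≤ 1 - 3 * (((0 : ℕ) : ℝ) + 1) / (N + 1) := by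
    have : 3 * (((0 : ℕ) : ℝ) + 1) / (N + 1) ≤ 3 / 4 := by
      rw [div_le_div_iff₀ (by linarith) (by norm_num)]
      push_cast
      linarith
    linarith
  have h4 := mul_le_mul_of_nonneg_right h3 (tau_nonneg N 0)
  have h5 : tau (1 : ℝ) N 0 ≤ 4 * tw N 0 := by
    unfold tw
    have e3 : 4 * ((0 : ℕ) : ℤ) + 2 = 2 := by norm_num
    rw [e3]
    linarith
  calc (3 : ℝ) ^ N ≤ (2 * N + 1) * tau (1 : ℝ) N 0 := h1
    _ ≤ (2 * N + 1) * (4 * tw N 0) := mul_le_mul_of_nonneg_left h5 (by positivity)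
    _ = _ := by ring

end Pool.Agent.Zk20.FQ
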